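import Mathlib

set_option autoImplicit false

namespace Pool.Agent.Y307.EL

open Filter

/-- The sequence delayed by one step. -/
noncomputable def prev (q : ℕ → ℝ) (k : ℕ) : ℝ := if k = 0 then 0 else q (k - 1)

lemma prev_zero (q : ℕ → ℝ) : prev q 0 = 0 := by simp [prev]

lemma prev_succ (q : ℕ → ℝ) (k : ℕ) : prev q (k + 1) = q k := by simp [prev]

lemma summable_prev {q : ℕ → ℝ} (hq : Summable (fun k => |q k|)) :
    Summable (fun k => |prev q k|) := by
  rw [← summable_nat_add_iff 1]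
  simpa [prev_succ] using hq

/-- The first target: `s` at time zero. -/
noncomputable def h1 (s : ℝ) (k : ℕ) : ℝ := if k = 0 then s else 0

/-- The second target: `b j` at time `3 j` and `c j` at time `3 j + 1`. -/
noncomputable def h2 (b c : ℕ → ℝ) (k : ℕ) : ℝ :=
  if k % 3 = 0 then b (k / 3) else if k % 3 = 1 then c (k / 3) else 0

/-- The optimal sequence: half the positive part of `c j` at time `3 j`. -/
noncomputable def qs (c : ℕ → ℝ) (k : ℕ) : ℝ :=
  if k % 3 = 0 then max (c (k / 3)) 0 / 2 else 0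

noncomputable def t1 (s : ℝ) (q : ℕ → ℝ) (k : ℕ) : ℝ := |h1 s k - 3 * q k|

noncomputable def t2 (b c q : ℕ → ℝ) (k : ℕ) : ℝ := |h2 b c k - (2 * q k + 2 * prev q k)|

lemma h2_0 (b c : ℕ → ℝ) (n : ℕ) : h2 b c (3 * n) = b n := by
  have e1 : 3 * n % 3 = 0 := by omega
  have e2 : 3 * n / 3 = n := by omega
  simp [h2]

lemma h2_1 (b c : ℕ → ℝ) (n : ℕ) : h2 b c (3 * n + 1) = c n := by
  have e1 : (3 * n + 1) % 3 = 1 := by omega
  have e2 : (3 * n + 1) / 3 = n := by omega
  simp [h2, e1, e2]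

lemma h2_2 (b c : ℕ → ℝ) (n : ℕ) : h2 b c (3 * n + 2) = 0 := by
  have e1 : (3 * n + 2) % 3 = 2 := by omega
  simp [h2, e1]

lemma qs_0 (c : ℕ → ℝ) (n : ℕ) : qs c (3 * n) = max (c n) 0 / 2 := by
  simp [qs]

lemma qs_1 (c : ℕ → ℝ) (n : ℕ) : qs c (3 * n + 1) = 0 := by
  have e1 : (3 * n + 1) % 3 = 1 := by omega
  simp [qs, e1]

lemma qs_2 (c : ℕ → ℝ) (n : ℕ) : qs c (3 * n + 2) = 0 := by
  have e1 : (3 * n + 2) % 3 = 2 := by omega
  simp [qs, e1]

lemma prev_qs (c : ℕ → ℝ) (n : ℕ) : prev (qs c) (3 * n) = 0 := by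
  rcases n with _ | n
  · simp [prev]
  · have : 3 * (n + 1) = (3 * n + 2) + 1 := by ring
    rw [this, prev_succ, qs_2]

lemma block_ineq (b c x y z p : ℝ) (hb : 0 ≤ b) (hcb : c ≤ b) :
    3 * (max c 0 / 2) + |b - max c 0| + |c - max c 0|
      + (|x - max c 0 / 2| + |y| + |z|) + 2 * |z|
      ≤ (3 * |x| + |b - (2 * x + 2 * p)|) + (3 * |y| + |c - (2 * y + 2 * x)|)
        + (3 * |z| + |0 - (2 * z + 2 * y)|) + 2 * |p| := by
  have a1 : |b - 2 * x| ≤ |b - (2 * x + 2 * p)| + 2 * |p| := by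
    have h : b - 2 * x = (b - (2 * x + 2 * p)) + 2 * p := by ring
    rw [h]
    refine (abs_add_le _ _).trans ?_
    rw [abs_mul, abs_two]
  have a2 : |c - 2 * x| ≤ |c - (2 * y + 2 * x)| + 2 * |y| := by
    have h : c - 2 * x = (c - (2 * y + 2 * x)) + 2 * y := by ring
    rw [h]
    refine (abs_add_le _ _).trans ?_
    rw [abs_mul, abs_two]
  have a3 : 0 ≤ |0 - (2 * z + 2 * y)| := abs_nonneg _
  have key : 3 * (max c 0 / 2) + |b - max c 0| + |c - max c 0| + |x - max c 0 / 2|
      ≤ 3 * |x| + |b - 2 * x| + |c - 2 * x| := by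
    rcases le_total c 0 with h | h
    · rw [max_eq_right h]
      have e1 : |b - 0| = b := by rw [sub_zero, abs_of_nonneg hb]
      have e2 : |c - 0| = -c := by rw [sub_zero, abs_of_nonpos h]
      rw [e1, e2]
      have e3 : b - c ≤ |b - 2 * x| + |c - 2 * x| := by
        have := abs_sub_abs_le_abs_sub (b - 2 * x) (c - 2 * x)
        have h5 : (b - 2 * x) - (c - 2 * x) = b - c := by ring
        have h6 := abs_sub (b - 2 * x) (c - 2 * x)
        rw [h5] at h6
        exact (le_abs_self _).trans h6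
      have e4 : |x - 0 / 2| = |x| := by norm_num
      rw [e4]
      have e5 : 0 ≤ |x| := abs_nonneg x
      linarith
    · rw [max_eq_left h]
      have e1 : |b - c| = b - c := abs_of_nonneg (by linarith)
      have e2 : |c - c| = 0 := by simp
      rw [e1, e2]
      have e3 : b ≤ |b - 2 * x| + 2 * |x| := by
        have h5 : b = (b - 2 * x) + 2 * x := by ring
        have h6 := abs_add_le (b - 2 * x) (2 * x)
        rw [← h5, abs_mul, abs_two] at h6
        exact (le_abs_self b).trans h6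
      have e4 : |x - c / 2| = |c - 2 * x| / 2 := by
        have : x - c / 2 = -((c - 2 * x) / 2) := by ring
        rw [this, abs_neg, abs_div, abs_two]
      have e5 : c ≤ |c - 2 * x| + 2 * |x| := by
        have h5 : c = (c - 2 * x) + 2 * x := by ring
        have h6 := abs_add_le (c - 2 * x) (2 * x)
        rw [← h5, abs_mul, abs_two] at h6
        exact (le_abs_self c).trans h6
      rw [e4]
      linarith
  linarith

lemma block_zero (s x y z : ℝ) :
    |s| + (|x| + |y| + |z|) + 2 * |z|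
      ≤ (|s - 3 * x| + |0 - (2 * x + 2 * 0)|) + (3 * |y| + |0 - (2 * y + 2 * x)|)
        + (3 * |z| + |0 - (2 * z + 2 * y)|) := by
  have a1 : |s| ≤ |s - 3 * x| + 3 * |x| := by
    have h5 : s = (s - 3 * x) + 3 * x := by ring
    have h6 := abs_add_le (s - 3 * x) (3 * x)
    rw [← h5, abs_mul] at h6
    have : |(3 : ℝ)| = 3 := by norm_num
    rwa [this] at h6
  have a2 : |0 - (2 * x + 2 * 0)| = 2 * |x| := by
    have : 0 - (2 * x + 2 * 0) = -(2 * x) := by ring
    rw [this, abs_neg, abs_mul, abs_two]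
  have a3 : 2 * |x| ≤ |0 - (2 * y + 2 * x)| + 2 * |y| := by
    have h5 : -(2 * x) = (0 - (2 * y + 2 * x)) + 2 * y := by ring
    have h6 := abs_add_le (0 - (2 * y + 2 * x)) (2 * y)
    rw [← h5, abs_neg, abs_mul, abs_mul, abs_two] at h6
    exact h6
  have a4 : 0 ≤ |0 - (2 * z + 2 * y)| := abs_nonneg _
  linarith [abs_nonneg z]

lemma sum_range_three (f : ℕ → ℝ) (n : ℕ) :
    ∑ k ∈ Finset.range (3 * (n + 1)), f k
      = ∑ k ∈ Finset.range (3 * n), f k + (f (3 * n) + f (3 * n + 1) + f (3 * n + 2)) := by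
  have : 3 * (n + 1) = 3 * n + 1 + 1 + 1 := by ring
  rw [this, Finset.sum_range_succ, Finset.sum_range_succ, Finset.sum_range_succ]
  ring

lemma partial_ineq (s : ℝ) (b c q : ℕ → ℝ) (hb : ∀ j, 0 ≤ b j) (hcb : ∀ j, c j ≤ b j)
    (hb0 : b 0 = 0) (hc0 : c 0 = 0) (n : ℕ) :
    ∑ k ∈ Finset.range (3 * n), (t1 s (qs c) k + t2 b c (qs c) k)
      + ∑ k ∈ Finset.range (3 * n), |q k - qs c k| + 2 * |prev q (3 * n)|
      ≤ ∑ k ∈ Finset.range (3 * n), (t1 s q k + t2 b c q k) := by
  induction n with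
  | zero => simp [prev_zero]
  | succ n ih =>
    rw [sum_range_three, sum_range_three, sum_range_three]
    have hp : prev q (3 * (n + 1)) = q (3 * n + 2) := by
      have : 3 * (n + 1) = (3 * n + 2) + 1 := by ring
      rw [this, prev_succ]
    have hp1 : ∀ r : ℕ → ℝ, prev r (3 * n + 1) = r (3 * n) := fun r => prev_succ r _
    have hp2 : ∀ r : ℕ → ℝ, prev r (3 * n + 2) = r (3 * n + 1) := fun r => prev_succ r _
    rw [hp]
    have g1 : h1 s (3 * n + 1) = 0 := by simp [h1]
    have g2 : h1 s (3 * n + 2) = 0 := by simp [h1]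
    have e1 : |0 - 3 * q (3 * n + 1)| = 3 * |q (3 * n + 1)| := by
      rw [zero_sub, abs_neg, abs_mul]; norm_num
    have e2 : |0 - 3 * q (3 * n + 2)| = 3 * |q (3 * n + 2)| := by
      rw [zero_sub, abs_neg, abs_mul]; norm_num
    have blk : (t1 s (qs c) (3 * n) + t2 b c (qs c) (3 * n)
        + (t1 s (qs c) (3 * n + 1) + t2 b c (qs c) (3 * n + 1))
        + (t1 s (qs c) (3 * n + 2) + t2 b c (qs c) (3 * n + 2)))
        + (|q (3 * n) - qs c (3 * n)| + |q (3 * n + 1) - qs c (3 * n + 1)|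
          + |q (3 * n + 2) - qs c (3 * n + 2)|) + 2 * |q (3 * n + 2)|
        ≤ (t1 s q (3 * n) + t2 b c q (3 * n)
        + (t1 s q (3 * n + 1) + t2 b c q (3 * n + 1))
        + (t1 s q (3 * n + 2) + t2 b c q (3 * n + 2))) + 2 * |prev q (3 * n)| := by
      simp only [t1, t2, h2_0, h2_1, h2_2, qs_0, qs_1, qs_2, hp1, hp2, prev_qs, g1, g2]
      rw [e1, e2]
      rcases Nat.eq_zero_or_pos n with hn | hn
      · subst hn
        have g0 : h1 s (3 * 0) = s := by simp [h1]
        have gp : prev q (3 * 0) = 0 := by simp [prev]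
        have hB := block_zero s (q (3 * 0)) (q (3 * 0 + 1)) (q (3 * 0 + 2))
        rw [g0, gp, hb0, hc0]
        simp only [max_self, zero_div, mul_zero, sub_zero, abs_zero, add_zero, zero_add]
          at hB ⊢
        linarith
      · have g0 : h1 s (3 * n) = 0 := by
          have : n ≠ 0 := by omega
          simp [h1, this]
        have hB := block_ineq (b n) (c n) (q (3 * n)) (q (3 * n + 1)) (q (3 * n + 2))
          (prev q (3 * n)) (hb n) (hcb n)
        rw [g0]
        have e3 : |0 - 3 * (max (c n) 0 / 2)| = 3 * (max (c n) 0 / 2) := by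
          rw [zero_sub, abs_neg, abs_of_nonneg]; positivity
        have e4 : |0 - 3 * q (3 * n)| = 3 * |q (3 * n)| := by
          rw [zero_sub, abs_neg, abs_mul]; norm_num
        rw [e3, e4]
        have e5 : 2 * (max (c n) 0 / 2) + 2 * 0 = max (c n) 0 := by ring
        have e6 : 2 * 0 + 2 * (max (c n) 0 / 2) = max (c n) 0 := by ring
        have e7 : |(0 : ℝ) - 3 * 0| = 0 := by norm_num
        have e8 : |(0 : ℝ) - (2 * 0 + 2 * 0)| = 0 := by norm_num
        rw [e5, e6, e7, e8, sub_zero, sub_zero]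
        linarith
    linarith

/-- The two costs. -/
noncomputable def N1 (s : ℝ) (q : ℕ → ℝ) : ℝ := ∑' k, t1 s q k
noncomputable def N2 (b c q : ℕ → ℝ) : ℝ := ∑' k, t2 b c q k

lemma summable_h1 (s : ℝ) : Summable (fun k => |h1 s k|) := by
  apply summable_of_ne_finset_zero (s := {0})
  intro k hk
  rw [Finset.mem_singleton] at hk
  simp [h1, hk]

lemma summable_t1 (s : ℝ) {q : ℕ → ℝ} (hq : Summable (fun k => |q k|)) :
    Summable (fun k => t1 s q k) := by
  unfold t1
  exact ((summable_h1 s).of_abs.sub (hq.of_abs.mul_left 3)).abs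

lemma summable_t2 {b c q : ℕ → ℝ} (hh : Summable (fun k => |h2 b c k|))
    (hq : Summable (fun k => |q k|)) :
    Summable (fun k => t2 b c q k) := by
  unfold t2
  exact (hh.of_abs.sub ((hq.of_abs.mul_left 2).add ((summable_prev hq).of_abs.mul_left 2))).abs

theorem core (s : ℝ) (b c q : ℕ → ℝ) (hb : ∀ j, 0 ≤ b j) (hcb : ∀ j, c j ≤ b j)
    (hb0 : b 0 = 0) (hc0 : c 0 = 0) (hh : Summable (fun k => |h2 b c k|))
    (hqs : Summable (fun k => |qs c k|)) (hq : Summable (fun k => |q k|)) :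
    N1 s (qs c) + N2 b c (qs c) + ∑' k, |q k - qs c k| ≤ N1 s q + N2 b c q := by
  have s1 := summable_t1 s hqs
  have s2 := summable_t2 hh hqs
  have s3 : Summable (fun k => |q k - qs c k|) := (hq.of_abs.sub hqs.of_abs).abs
  have s4 := summable_t1 s hq
  have s5 := summable_t2 hh hq
  unfold N1 N2
  rw [← s1.tsum_add s2, ← (s1.add s2).tsum_add s3, ← s4.tsum_add s5]
  have L1 := ((s1.add s2).add s3).hasSum.tendsto_sum_nat
  have L2 := (s4.add s5).hasSum.tendsto_sum_nat
  have hT : Tendsto (fun n : ℕ => 3 * n) atTop atTop := by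
    apply tendsto_atTop_mono (fun n => (by omega : n ≤ 3 * n)) tendsto_id
  refine le_of_tendsto_of_tendsto' (L1.comp hT) (L2.comp hT) (fun n => ?_)
  simp only [Function.comp]
  have := partial_ineq s b c q hb hcb hb0 hc0 n
  rw [Finset.sum_add_distrib]
  have h0 : 0 ≤ 2 * |prev q (3 * n)| := by positivity
  linarith

/-- The balancing constant. -/
noncomputable def sbal (b c : ℕ → ℝ) : ℝ := N2 b c (qs c) - ∑' k, |3 * qs c k|

lemma balanced (b c : ℕ → ℝ) (hbc : ∀ j, 5 / 2 * max (c j) 0 ≤ b j) (hc0 : c 0 = 0)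
    (hh : Summable (fun k => |h2 b c k|)) (hqs : Summable (fun k => |qs c k|)) :
    N1 (sbal b c) (qs c) = N2 b c (qs c) := by
  have s2 := summable_t2 hh hqs
  have s3 : Summable (fun k => |3 * qs c k|) := (hqs.of_abs.mul_left 3).abs
  have hs : 0 ≤ sbal b c := by
    unfold sbal N2
    rw [sub_nonneg]
    refine s3.tsum_le_tsum (fun k => ?_) s2
    have hk : k = 3 * (k / 3) + k % 3 := (Nat.div_add_mod k 3).symm
    have hlt : k % 3 < 3 := Nat.mod_lt _ (by norm_num)
    generalize k / 3 = n at hk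
    generalize k % 3 = r at hk hlt
    have hm : 0 ≤ max (c n) 0 := le_max_right _ _
    interval_cases r
    · rw [hk, add_zero]
      unfold t2
      rw [h2_0, qs_0, prev_qs, abs_of_nonneg (by positivity)]
      refine le_trans ?_ (le_abs_self _)
      have := hbc n
      linarith
    · rw [hk]
      unfold t2
      rw [qs_1]
      simp
    · rw [hk]
      unfold t2
      rw [qs_2]
      simp
  have h0 : qs c 0 = 0 := by
    have := qs_0 c 0
    rw [mul_zero, hc0] at this
    simpa using this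
  have e : ∀ k, t1 (sbal b c) (qs c) k = (if k = 0 then sbal b c else 0) + |3 * qs c k| := by
    intro k
    unfold t1 h1
    by_cases hk : k = 0
    · subst hk
      simp [h0, abs_of_nonneg hs]
    · simp [hk]
  unfold N1
  have s6 : Summable (fun k : ℕ => if k = 0 then sbal b c else 0) := by
    apply summable_of_ne_finset_zero (s := {0})
    intro k hk
    rw [Finset.mem_singleton] at hk
    simp [hk]
  rw [tsum_congr e, s6.tsum_add s3, tsum_ite_eq]
  unfold sbal
  ring

end Pool.Agent.Y307.EL
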