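import Mathlib
import Pool.Agent.Y307.EL.Core

set_option autoImplicit false

namespace Pool.Agent.Y307.EL

open Filter Real Polynomial

/-! ### An angle with rational cosine which is an irrational multiple of `2π` -/

/-- The angle with cosine `3/5`. -/
noncomputable def th : ℝ := Real.arccos (3 / 5)

lemma cos_th : cos th = 3 / 5 := by
  unfold th
  rw [Real.cos_arccos] <;> norm_num

/-- `5^n cos(n θ)` as an integer sequence. -/
def ci : ℕ → ℤ
  | 0 => 1
  | 1 => 3
  | (n + 2) => 6 * ci (n + 1) - 25 * ci n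

lemma cos_rec (n : ℕ) : cos (((n + 2 : ℕ) : ℝ) * th)
    = 2 * cos th * cos (((n + 1 : ℕ) : ℝ) * th) - cos ((n : ℝ) * th) := by
  have h1 : ((n + 2 : ℕ) : ℝ) * th = (((n + 1 : ℕ) : ℝ) * th) + th := by push_cast; ring
  have h2 : (n : ℝ) * th = (((n + 1 : ℕ) : ℝ) * th) - th := by push_cast; ring
  rw [h1, h2, cos_add, cos_sub]
  ring

lemma ci_eq : ∀ n : ℕ, (ci n : ℝ) = 5 ^ n * cos (n * th) ∧
    (ci (n + 1) : ℝ) = 5 ^ (n + 1) * cos (((n + 1 : ℕ) : ℝ) * th) := by
  intro n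
  induction n with
  | zero =>
    constructor
    · simp [ci]
    · simp [ci, cos_th]
      norm_num
  | succ n ih =>
    refine ⟨ih.2, ?_⟩
    have : ci (n + 1 + 1) = 6 * ci (n + 1) - 25 * ci n := by simp [ci]
    rw [this]
    push_cast [ih.1, ih.2]
    have h := cos_rec n
    rw [cos_th] at h
    have h' : cos (((n : ℝ) + 1 + 1) * th) = 2 * (3 / 5) * cos (((n : ℝ) + 1) * th)
        - cos ((n : ℝ) * th) := by
      have e : ((n + 2 : ℕ) : ℝ) = (n : ℝ) + 1 + 1 := by push_cast; ring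
      rw [← e, h]; push_cast; ring
    have i1 := ih.1
    have i2 := ih.2
    rw [h']
    ring

lemma ci_mod : ∀ n : ℕ, ci (n + 1) % 5 = 3 := by
  intro n
  induction n with
  | zero => simp [ci]
  | succ n ih =>
    have : ci (n + 1 + 1) = 6 * ci (n + 1) - 25 * ci n := by simp [ci]
    rw [this]
    omega

lemma cos_ne_one {i : ℕ} (hi : 0 < i) : cos (i * th) ≠ 1 := by
  intro h
  obtain ⟨n, rfl⟩ : ∃ n, i = n + 1 := ⟨i - 1, by omega⟩
  have h1 := (ci_eq n).2
  rw [h, mul_one] at h1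
  have h2 : ci (n + 1) = 5 ^ (n + 1) := by exact_mod_cast h1
  have h3 := ci_mod n
  rw [h2, pow_succ] at h3
  omega

lemma cos_lt_one {i : ℕ} (hi : 0 < i) : cos (i * th) < 1 :=
  lt_of_le_of_ne (cos_le_one _) (cos_ne_one hi)

lemma gap_delta (d : ℕ) : ∃ δ : ℝ, 0 < δ ∧ ∀ i : ℕ, 0 < i → i ≤ d → δ ≤ 1 - cos (i * th) := by
  rcases Nat.eq_zero_or_pos d with hd | hd
  · exact ⟨1, one_pos, fun i h1 h2 => by omega⟩
  · have hne : (Finset.Icc 1 d).Nonempty := ⟨1, by simp; omega⟩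
    obtain ⟨i0, hi0, hmin⟩ := Finset.exists_min_image (Finset.Icc 1 d)
      (fun i : ℕ => 1 - cos ((i : ℝ) * th)) hne
    rw [Finset.mem_Icc] at hi0
    refine ⟨1 - cos ((i0 : ℝ) * th), by linarith [cos_lt_one (i := i0) (by omega)], ?_⟩
    intro i h1 h2
    exact hmin i (by rw [Finset.mem_Icc]; omega)

/-- Dirichlet: there are arbitrarily large `j` with `j (1 - cos (j θ)) < 1`. -/
lemma exists_good (K : ℕ) : ∃ j, K ≤ j ∧ 0 < j ∧ (j : ℝ) * (1 - cos (j * th)) < 1 := by
  obtain ⟨δ, hδ, hδ'⟩ := gap_delta (K + 25)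
  obtain ⟨N, hN⟩ := exists_nat_gt (20 / δ)
  have hNpos : 0 < N + 1 := Nat.succ_pos _
  obtain ⟨p, j, hj0, hjN, hpj⟩ := Real.exists_int_int_abs_mul_sub_le (th / (2 * π)) hNpos
  have hpi : 0 < π := Real.pi_pos
  have hj : |(j : ℝ) * th - p * (2 * π)| ≤ 2 * π / ((N : ℝ) + 2) := by
    have e : (j : ℝ) * th - p * (2 * π) = (j * (th / (2 * π)) - p) * (2 * π) := by
      field_simp
    rw [e, abs_mul, abs_of_pos (by positivity : (0 : ℝ) < 2 * π)]
    have h1 : |(j : ℝ) * (th / (2 * π)) - p| ≤ 1 / ((N : ℝ) + 2) := by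
      refine hpj.trans (le_of_eq ?_)
      push_cast
      ring
    calc |(j : ℝ) * (th / (2 * π)) - p| * (2 * π) ≤ (1 / ((N : ℝ) + 2)) * (2 * π) :=
          mul_le_mul_of_nonneg_right h1 (by positivity)
      _ = 2 * π / ((N : ℝ) + 2) := by ring
  have hcos : 1 - cos ((j : ℝ) * th) ≤ 20 / ((N : ℝ) + 2) ^ 2 := by
    have e1 : cos ((j : ℝ) * th) = cos ((j : ℝ) * th - p * (2 * π)) := by
      rw [Real.cos_sub_int_mul_two_pi]
    rw [e1]
    have e2 := Real.one_sub_sq_div_two_le_cos (x := (j : ℝ) * th - p * (2 * π))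
    have e3 : ((j : ℝ) * th - p * (2 * π)) ^ 2 ≤ (2 * π / ((N : ℝ) + 2)) ^ 2 := by
      rw [← sq_abs]
      exact pow_le_pow_left₀ (abs_nonneg _) hj 2
    have e4 : (2 * π / ((N : ℝ) + 2)) ^ 2 ≤ 40 / ((N : ℝ) + 2) ^ 2 := by
      rw [div_pow]
      apply div_le_div_of_nonneg_right _ (by positivity)
      have := Real.pi_lt_d2
      nlinarith
    have e5 : 20 / ((N : ℝ) + 2) ^ 2 = (40 / ((N : ℝ) + 2) ^ 2) / 2 := by ring
    rw [e5]
    linarith
  obtain ⟨m, hm⟩ : ∃ m : ℕ, (m : ℤ) = j := ⟨j.toNat, Int.toNat_of_nonneg hj0.le⟩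
  have hmr : (j : ℝ) = (m : ℝ) := by rw [← hm]; simp
  rw [hmr] at hcos
  have hm0 : 0 < m := by omega
  have hmN : m ≤ N + 1 := by omega
  have hNr : (0 : ℝ) ≤ N := Nat.cast_nonneg N
  have hbig : K + 25 < m := by
    by_contra hcon
    push Not at hcon
    have h1 := hδ' m hm0 hcon
    have h2 : δ ≤ 20 / ((N : ℝ) + 2) ^ 2 := h1.trans hcos
    rw [le_div_iff₀ (by positivity)] at h2
    rw [div_lt_iff₀ hδ] at hN
    nlinarith
  refine ⟨m, by omega, hm0, ?_⟩
  have hmr2 : (m : ℝ) ≤ N + 1 := by exact_mod_cast hmN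
  have hm25 : (25 : ℝ) < m := by exact_mod_cast (by omega : 25 < m)
  calc (m : ℝ) * (1 - cos (m * th)) ≤ (m : ℝ) * (20 / ((N : ℝ) + 2) ^ 2) :=
        mul_le_mul_of_nonneg_left hcos (Nat.cast_nonneg m)
    _ < 1 := by
        rw [mul_div_assoc', div_lt_one (by positivity)]
        nlinarith

lemma one_sub_cos_sub_le (x y : ℝ) :
    1 - cos (x - y) ≤ 2 * (1 - cos x) + 2 * (1 - cos y) := by
  rw [Real.cos_sub]
  nlinarith [sq_nonneg (cos x + cos y - 2), sq_nonneg (sin x + sin y), sin_sq_add_cos_sq x,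
    sin_sq_add_cos_sq y]

/-! ### The data -/

/-- `3 / 2^j`, for positive `j`. -/
noncomputable def bd (j : ℕ) : ℝ := if j = 0 then 0 else 3 * (1 / 2) ^ j

/-- `2^(-j) (1 - j (1 - cos (j θ)))`, for positive `j`. -/
noncomputable def cd (j : ℕ) : ℝ :=
  if j = 0 then 0 else (1 / 2) ^ j * (1 - j * (1 - cos (j * th)))

lemma bd_zero : bd 0 = 0 := by simp [bd]

lemma cd_zero : cd 0 = 0 := by simp [cd]

lemma bd_nonneg (j : ℕ) : 0 ≤ bd j := by
  unfold bd; split_ifs
  · exact le_rfl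
  · positivity

lemma bd_dom (j : ℕ) : 5 / 2 * max (cd j) 0 ≤ bd j := by
  unfold cd bd
  split_ifs with h
  · simp
  · have h1 : (0 : ℝ) < (1 / 2) ^ j := by positivity
    have h2 : 0 ≤ (j : ℝ) * (1 - cos (j * th)) :=
      mul_nonneg (Nat.cast_nonneg j) (by linarith [cos_le_one (j * th)])
    have h3 : max ((1 / 2 : ℝ) ^ j * (1 - j * (1 - cos (j * th)))) 0 ≤ (1 / 2) ^ j := by
      apply max_le _ h1.le
      nlinarith
    linarith

lemma cd_le_bd (j : ℕ) : cd j ≤ bd j := by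
  have h1 := bd_dom j
  have h2 : cd j ≤ max (cd j) 0 := le_max_left _ _
  have h3 : 0 ≤ max (cd j) 0 := le_max_right _ _
  linarith

lemma cd_pos_iff (j : ℕ) (hj : 0 < j) : 0 < cd j ↔ (j : ℝ) * (1 - cos (j * th)) < 1 := by
  unfold cd
  rw [if_neg (by omega)]
  have h1 : (0 : ℝ) < (1 / 2) ^ j := by positivity
  constructor
  · intro h
    have := (mul_pos_iff_of_pos_left h1).mp h
    linarith
  · intro h
    exact mul_pos h1 (by linarith)

lemma qs_runs (d K : ℕ) : ∃ k, K ≤ k ∧ ∀ i, i < d → qs cd (k + i) = 0 := by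
  obtain ⟨δ, hδ, hδ'⟩ := gap_delta (d + 1)
  obtain ⟨N, hN⟩ := exists_nat_gt (4 / δ)
  obtain ⟨k0, hk0, hk0pos, hgood⟩ := exists_good (max K (N + 1))
  refine ⟨3 * (k0 + 1), by omega, ?_⟩
  intro i hi
  unfold qs
  split_ifs with h3
  swap
  · rfl
  have hdiv : (3 * (k0 + 1) + i) / 3 = k0 + (1 + i / 3) := by omega
  rw [hdiv]
  set r := 1 + i / 3 with hr
  have hr1 : 0 < r := by omega
  have hr2 : r ≤ d + 1 := by omega
  by_contra hne
  have hpos2 : 0 < cd (k0 + r) := by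
    by_contra h
    push Not at h
    apply hne
    rw [max_eq_right h, zero_div]
  rw [cd_pos_iff _ (by omega)] at hpos2
  have hk0r : (0 : ℝ) < k0 := by exact_mod_cast hk0pos
  have h1 : 1 - cos ((k0 : ℝ) * th) < 1 / k0 := by
    rw [lt_div_iff₀ hk0r]; linarith
  have h2 : 1 - cos (((k0 + r : ℕ) : ℝ) * th) < 1 / k0 := by
    rw [lt_div_iff₀ hk0r]
    have h3 : (k0 : ℝ) ≤ ((k0 + r : ℕ) : ℝ) := by exact_mod_cast (by omega)
    have h4 : 0 ≤ 1 - cos (((k0 + r : ℕ) : ℝ) * th) := by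
      linarith [cos_le_one (((k0 + r : ℕ) : ℝ) * th)]
    nlinarith
  have h3 := one_sub_cos_sub_le (((k0 + r : ℕ) : ℝ) * th) ((k0 : ℝ) * th)
  have h4 : ((k0 + r : ℕ) : ℝ) * th - (k0 : ℝ) * th = (r : ℝ) * th := by
    push_cast; ring
  rw [h4] at h3
  have h5 := hδ' r hr1 hr2
  have h6 : δ < 4 * (1 / k0) := by linarith
  have h7 : 4 / δ < k0 := by
    have : (N : ℝ) ≤ k0 := by exact_mod_cast (by omega : N ≤ k0)
    linarith
  rw [div_lt_iff₀ hδ] at h7
  have h8 : δ * k0 < 4 := by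
    have := mul_lt_mul_of_pos_right h6 hk0r
    rwa [mul_assoc, one_div, inv_mul_cancel₀ hk0r.ne', mul_one] at this
  linarith

lemma qs_not_eventually_zero : ¬ ∃ K : ℕ, ∀ k, K ≤ k → qs cd k = 0 := by
  rintro ⟨K, hK⟩
  obtain ⟨j, hj, hj0, hgood⟩ := exists_good K
  have h1 := hK (3 * j) (by omega)
  rw [qs_0] at h1
  have h2 := (cd_pos_iff j hj0).mpr hgood
  have h3 : cd j ≤ max (cd j) 0 := le_max_left _ _
  linarith

/-! ### P-recursive sequences -/

/-- A sequence is P-recursive (equivalently, its generating function is D-finite): from some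
index on it satisfies a linear recurrence with polynomial coefficients, not all of them zero. -/
def IsPRec (a : ℕ → ℝ) : Prop :=
  ∃ (D K : ℕ) (P : ℕ → ℝ[X]), (∃ i, i ≤ D ∧ P i ≠ 0) ∧
    ∀ n, K ≤ n → ∑ i ∈ Finset.range (D + 1), (P i).eval (n : ℝ) * a (n + i) = 0

lemma IsPRec.eventually_zero {a : ℕ → ℝ} (h : IsPRec a)
    (hruns : ∀ d K : ℕ, ∃ k, K ≤ k ∧ ∀ i, i < d → a (k + i) = 0) :
    ∃ K : ℕ, ∀ k, K ≤ k → a k = 0 := by
  classical
  obtain ⟨D, K, P, ⟨i0, hi0, hPi0⟩, hrec⟩ := h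
  -- the largest index with a nonzero coefficient
  obtain ⟨m, hm, hmax⟩ := Finset.exists_max_image
    ((Finset.range (D + 1)).filter (fun i => P i ≠ 0)) (fun i => i)
    ⟨i0, by rw [Finset.mem_filter, Finset.mem_range]; exact ⟨by omega, hPi0⟩⟩
  rw [Finset.mem_filter, Finset.mem_range] at hm
  have hzero : ∀ i, i < D + 1 → m < i → P i = 0 := by
    intro i hi hmi
    by_contra hne
    have := hmax i (by rw [Finset.mem_filter, Finset.mem_range]; exact ⟨hi, hne⟩)
    omega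
  have hroots : ∀ᶠ n : ℕ in atTop, (P m).eval (n : ℝ) ≠ 0 := by
    have h1 := Polynomial.eventually_atTop_not_isRoot (P m) hm.2
    exact (tendsto_natCast_atTop_atTop.eventually h1)
  obtain ⟨K1, hK1⟩ := eventually_atTop.mp hroots
  have hstep : ∀ n, max K K1 ≤ n → (∀ i, i < m → a (n + i) = 0) → a (n + m) = 0 := by
    intro n hn hz
    have h1 := hrec n (le_trans (le_max_left _ _) hn)
    rw [Finset.sum_eq_single m] at h1
    · rcases mul_eq_zero.mp h1 with h2 | h2
      · exact absurd h2 (hK1 n (le_trans (le_max_right _ _) hn))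
      · exact h2
    · intro i hi hne
      rw [Finset.mem_range] at hi
      rcases lt_or_gt_of_ne hne with h2 | h2
      · rw [hz i h2, mul_zero]
      · rw [hzero i hi h2]; simp
    · intro hcon
      exact absurd (Finset.mem_range.mpr hm.1) hcon
  obtain ⟨k0, hk0, hz⟩ := hruns m (max K K1)
  refine ⟨k0, ?_⟩
  intro k hk
  obtain ⟨n, rfl⟩ := Nat.exists_eq_add_of_le hk
  clear hk
  induction n using Nat.strong_induction_on with
  | _ n ih =>
    by_cases hn : n < m
    · exact hz n hn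
    · push Not at hn
      have h1 : k0 + n = (k0 + (n - m)) + m := by omega
      rw [h1]
      apply hstep (k0 + (n - m)) (by omega)
      intro i hi
      have h2 : k0 + (n - m) + i = k0 + (n - m + i) := by omega
      rw [h2]
      exact ih (n - m + i) (by omega)

theorem not_isPRec_qs : ¬ IsPRec (qs cd) := fun h =>
  qs_not_eventually_zero (h.eventually_zero qs_runs)

/-- Coefficient sequences of rational functions are P-recursive. -/
theorem isPRec_of_rat {a : ℕ → ℝ} {P Q : ℝ[X]} (hQ : Q ≠ 0)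
    (h : PowerSeries.mk a * (Q : PowerSeries ℝ) = (P : PowerSeries ℝ)) : IsPRec a := by
  refine ⟨Q.natDegree, P.natDegree + 1, fun i => C (Q.coeff (Q.natDegree - i)), ?_, ?_⟩
  · refine ⟨0, Nat.zero_le _, ?_⟩
    show C (Q.coeff (Q.natDegree - 0)) ≠ 0
    rw [Nat.sub_zero]
    intro h0
    rw [C_eq_zero] at h0
    exact hQ (Polynomial.leadingCoeff_eq_zero.mp h0)
  · intro n hn
    have hcoef : PowerSeries.coeff (n + Q.natDegree) ((Q : PowerSeries ℝ) * PowerSeries.mk a)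
        = 0 := by
      rw [mul_comm, h, Polynomial.coeff_coe]
      apply Polynomial.coeff_eq_zero_of_natDegree_lt
      omega
    rw [PowerSeries.coeff_mul, Finset.Nat.sum_antidiagonal_eq_sum_range_succ_mk] at hcoef
    have hsub : ∑ k ∈ Finset.range (Q.natDegree + 1),
        PowerSeries.coeff k (Q : PowerSeries ℝ)
          * PowerSeries.coeff (n + Q.natDegree - k) (PowerSeries.mk a) = 0 := by
      rw [← hcoef]
      apply Finset.sum_subset
      · intro k hk
        rw [Finset.mem_range] at hk ⊢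
        omega
      · intro k _ hk
        rw [Finset.mem_range] at hk
        rw [Polynomial.coeff_coe, Polynomial.coeff_eq_zero_of_natDegree_lt (by omega), zero_mul]
    rw [← hsub, ← Finset.sum_range_reflect]
    apply Finset.sum_congr rfl
    intro i hi
    rw [Finset.mem_range] at hi
    rw [eval_C, Polynomial.coeff_coe, PowerSeries.coeff_mk]
    have e1 : Q.natDegree + 1 - 1 - i = Q.natDegree - i := by omega
    have e2 : Q.natDegree - (Q.natDegree - i) = i := by omega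
    have e3 : n + (Q.natDegree - i) = n + Q.natDegree - i := by omega
    rw [e1, e2, e3]

end Pool.Agent.Y307.EL
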