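import Mathlib
import Pool.Agent.Y307.EL.Angle

set_option autoImplicit false

namespace Pool.Agent.Y307.EL

open Polynomial

/-- A polynomial with integer coefficients as a real power series. -/
noncomputable def zp (Q : ℤ[X]) : PowerSeries ℝ :=
  ((Q.map (Int.castRingHom ℝ) : ℝ[X]) : PowerSeries ℝ)

lemma zp_add (P Q : ℤ[X]) : zp (P + Q) = zp P + zp Q := by simp [zp]
lemma zp_sub (P Q : ℤ[X]) : zp (P - Q) = zp P - zp Q := by simp [zp]
lemma zp_neg (P : ℤ[X]) : zp (-P) = -zp P := by simp [zp]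
lemma zp_mul (P Q : ℤ[X]) : zp (P * Q) = zp P * zp Q := by simp [zp]
lemma zp_one : zp 1 = 1 := by simp [zp]
lemma zp_zero : zp 0 = 0 := by simp [zp]
lemma zp_X : zp X = PowerSeries.X := by simp [zp]
lemma zp_C (n : ℤ) : zp (C n) = PowerSeries.C (n : ℝ) := by
  unfold zp
  rw [Polynomial.map_C, Polynomial.coe_C]
  rfl

lemma coeff_zp (Q : ℤ[X]) (n : ℕ) : PowerSeries.coeff n (zp Q) = (Q.coeff n : ℝ) := by
  simp [zp]

lemma zp_expand (Q : ℤ[X]) :
    PowerSeries.expand 3 three_ne_zero (zp Q) = zp (Polynomial.expand ℤ 3 Q) := by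
  ext n
  rw [PowerSeries.coeff_expand, coeff_zp, coeff_zp, Polynomial.coeff_expand (by norm_num)]
  split_ifs <;> simp

lemma zp_derivative (Q : ℤ[X]) : PowerSeries.derivative ℝ (zp Q) = zp (derivative Q) := by
  unfold zp
  rw [PowerSeries.derivative_coe, Polynomial.derivative_map]

/-- Absolutely summable coefficients. -/
def L1 (f : PowerSeries ℝ) : Prop := Summable (fun n => |PowerSeries.coeff n f|)

lemma L1.mul {f g : PowerSeries ℝ} (hf : L1 f) (hg : L1 g) : L1 (f * g) := by
  have hf' : Summable (fun n => ‖PowerSeries.coeff n f‖) := hf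
  have hg' : Summable (fun n => ‖PowerSeries.coeff n g‖) := hg
  have h := summable_norm_sum_mul_antidiagonal_of_summable_norm
    (f := fun n => PowerSeries.coeff n f) (g := fun n => PowerSeries.coeff n g) hf' hg'
  unfold L1
  simpa only [PowerSeries.coeff_mul, Real.norm_eq_abs] using h

lemma tsum_mul_le {f g : PowerSeries ℝ} (hf : L1 f) (hg : L1 g) :
    ∑' n, |PowerSeries.coeff n (f * g)|
      ≤ (∑' n, |PowerSeries.coeff n f|) * ∑' n, |PowerSeries.coeff n g| := by
  have hf' : Summable (fun n => ‖|PowerSeries.coeff n f|‖) := by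
    simp only [Real.norm_eq_abs, abs_abs]; exact hf
  have hg' : Summable (fun n => ‖|PowerSeries.coeff n g|‖) := by
    simp only [Real.norm_eq_abs, abs_abs]; exact hg
  rw [tsum_mul_tsum_eq_tsum_sum_antidiagonal_of_summable_norm
    (f := fun n => |PowerSeries.coeff n f|) (g := fun n => |PowerSeries.coeff n g|) hf' hg']
  refine (hf.mul hg).tsum_le_tsum (fun n => ?_) ?_
  · rw [PowerSeries.coeff_mul]
    refine (Finset.abs_sum_le_sum_abs _ _).trans (le_of_eq ?_)
    exact Finset.sum_congr rfl (fun x _ => abs_mul _ _)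
  · exact (summable_norm_sum_mul_antidiagonal_of_summable_norm
      (f := fun n => |PowerSeries.coeff n f|) (g := fun n => |PowerSeries.coeff n g|)
      hf' hg').of_norm

lemma L1_zp (P : ℤ[X]) : L1 (zp P) := by
  apply summable_of_ne_finset_zero (s := Finset.range (P.natDegree + 1))
  intro n hn
  rw [Finset.mem_range] at hn
  rw [coeff_zp, Polynomial.coeff_eq_zero_of_natDegree_lt (by omega)]
  simp

lemma L1.expand {f : PowerSeries ℝ} (hf : L1 f) :
    L1 (PowerSeries.expand 3 three_ne_zero f) := by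
  have hinj : Function.Injective (fun n : ℕ => 3 * n) := fun a b h => by
    simp only at h; omega
  unfold L1
  rw [← hinj.summable_iff]
  · refine hf.congr (fun n => ?_)
    simp only [Function.comp]
    rw [PowerSeries.coeff_expand_mul]
  · intro k hk
    rw [PowerSeries.coeff_expand, if_neg, abs_zero]
    rintro ⟨m, hm⟩
    exact hk ⟨m, hm.symm⟩

/-- Quotients of integer polynomials with a denominator having an absolutely summable
inverse. -/
def Stab (f : PowerSeries ℝ) : Prop :=
  ∃ (P Q : ℤ[X]) (g : PowerSeries ℝ), L1 g ∧ g * zp Q = 1 ∧ f * zp Q = zp P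

lemma Stab.zp (P : ℤ[X]) : Stab (zp P) :=
  ⟨P, 1, 1, by simpa [zp_one] using L1_zp 1, by simp [zp_one], by simp [zp_one]⟩

lemma Stab.add {f g : PowerSeries ℝ} (hf : Stab f) (hg : Stab g) : Stab (f + g) := by
  obtain ⟨P, Q, u, h1, h2, h3⟩ := hf
  obtain ⟨P', Q', u', h1', h2', h3'⟩ := hg
  refine ⟨P * Q' + P' * Q, Q * Q', u * u', h1.mul h1', ?_, ?_⟩
  · rw [zp_mul]
    calc u * u' * (EL.zp Q * EL.zp Q') = (u * EL.zp Q) * (u' * EL.zp Q') := by ring
      _ = 1 := by rw [h2, h2', one_mul]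
  · rw [zp_mul, zp_add, zp_mul, zp_mul, ← h3, ← h3']; ring

lemma Stab.mul {f g : PowerSeries ℝ} (hf : Stab f) (hg : Stab g) : Stab (f * g) := by
  obtain ⟨P, Q, u, h1, h2, h3⟩ := hf
  obtain ⟨P', Q', u', h1', h2', h3'⟩ := hg
  refine ⟨P * P', Q * Q', u * u', h1.mul h1', ?_, ?_⟩
  · rw [zp_mul]
    calc u * u' * (EL.zp Q * EL.zp Q') = (u * EL.zp Q) * (u' * EL.zp Q') := by ring
      _ = 1 := by rw [h2, h2', one_mul]
  · rw [zp_mul, zp_mul, ← h3, ← h3']; ring

lemma Stab.neg {f : PowerSeries ℝ} (hf : Stab f) : Stab (-f) := by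
  have := (Stab.zp (-1)).mul hf
  rwa [zp_neg, zp_one, neg_one_mul] at this

lemma Stab.indexMul {f : PowerSeries ℝ} (hf : Stab f) :
    Stab (PowerSeries.X * PowerSeries.derivative ℝ f) := by
  obtain ⟨P, Q, u, h1, h2, h3⟩ := hf
  refine ⟨X * (derivative P * Q - P * derivative Q), Q * Q, u * u, h1.mul h1, ?_, ?_⟩
  · rw [zp_mul]
    calc u * u * (EL.zp Q * EL.zp Q) = (u * EL.zp Q) * (u * EL.zp Q) := by ring
      _ = 1 := by rw [h2, one_mul]
  · have hd := congrArg (PowerSeries.derivative ℝ) h3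
    rw [Derivation.leibniz, zp_derivative, zp_derivative] at hd
    simp only [smul_eq_mul] at hd
    simp only [zp_mul, zp_sub, zp_X]
    rw [← hd, ← h3]; ring

lemma Stab.expand {f : PowerSeries ℝ} (hf : Stab f) :
    Stab (PowerSeries.expand 3 three_ne_zero f) := by
  obtain ⟨P, Q, u, h1, h2, h3⟩ := hf
  refine ⟨Polynomial.expand ℤ 3 P, Polynomial.expand ℤ 3 Q,
    PowerSeries.expand 3 three_ne_zero u, h1.expand, ?_, ?_⟩
  · rw [← zp_expand, ← map_mul, h2, map_one]
  · rw [← zp_expand, ← zp_expand, ← map_mul, h3]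

lemma Stab.L1 {f : PowerSeries ℝ} (hf : Stab f) : L1 f := by
  obtain ⟨P, Q, u, h1, h2, h3⟩ := hf
  have : f = EL.zp P * u := by
    rw [← h3, mul_assoc, mul_comm (EL.zp Q) u, h2, mul_one]
  rw [this]
  exact (L1_zp P).mul h1

lemma mk_mul_quad (a : ℕ → ℝ) (u v w : ℝ) (e f : ℝ) (h0 : u * a 0 = e) (h1 : u * a 1 + v * a 0 = f)
    (h : ∀ n, u * a (n + 2) + v * a (n + 1) + w * a n = 0) :
    PowerSeries.mk a * (PowerSeries.C u + PowerSeries.C v * PowerSeries.X
      + PowerSeries.C w * PowerSeries.X * PowerSeries.X)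
      = PowerSeries.C e + PowerSeries.C f * PowerSeries.X := by
  have hexp : PowerSeries.mk a * (PowerSeries.C u + PowerSeries.C v * PowerSeries.X
      + PowerSeries.C w * PowerSeries.X * PowerSeries.X)
      = PowerSeries.C u * PowerSeries.mk a + PowerSeries.C v * (PowerSeries.X * PowerSeries.mk a)
        + PowerSeries.C w * (PowerSeries.X * (PowerSeries.X * PowerSeries.mk a)) := by ring
  rw [hexp]
  ext n
  rcases n with _ | _ | n
  · simp [h0]
  · simp [PowerSeries.coeff_succ_X_mul, PowerSeries.coeff_succ_mul_X, h1]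
  · have := h n
    simp [PowerSeries.coeff_succ_X_mul, PowerSeries.coeff_succ_mul_X]
    linarith

/-- The sequence `2^(-k)`. -/
lemma stab_geom : Stab (PowerSeries.mk (fun k : ℕ => (1 / 2 : ℝ) ^ k)) := by
  refine ⟨C 2, C 2 + C (-1) * X + C 0 * X * X, PowerSeries.mk (fun k : ℕ => (1 / 2 : ℝ) ^ (k + 1)),
    ?_, ?_, ?_⟩
  · unfold EL.L1
    simp only [PowerSeries.coeff_mk]
    have h : Summable (fun k : ℕ => (1 / 2 : ℝ) ^ (k + 1)) :=
      (summable_nat_add_iff 1).mpr (summable_geometric_of_lt_one (by norm_num) (by norm_num))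
    exact h.abs
  · simp only [zp_add, zp_mul, zp_C, zp_X]
    rw [mk_mul_quad (e := 1) (f := 0)]
    · simp
    · push_cast; norm_num
    · push_cast; norm_num
    · intro n; push_cast; ring
  · simp only [zp_add, zp_mul, zp_C, zp_X]
    rw [mk_mul_quad (e := 2) (f := 0)]
    · simp
    · push_cast; norm_num
    · push_cast; norm_num
    · intro n; push_cast; ring

lemma sin_rec (n : ℕ) : Real.sin (((n + 2 : ℕ) : ℝ) * th)
    = 2 * Real.cos th * Real.sin (((n + 1 : ℕ) : ℝ) * th) - Real.sin ((n : ℝ) * th) := by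
  have h1 : ((n + 2 : ℕ) : ℝ) * th = (((n + 1 : ℕ) : ℝ) * th) + th := by push_cast; ring
  have h2 : (n : ℝ) * th = (((n + 1 : ℕ) : ℝ) * th) - th := by push_cast; ring
  rw [h1, h2, Real.sin_add, Real.sin_sub]
  ring

lemma sin_th : Real.sin th = 4 / 5 := by
  unfold th
  rw [Real.sin_arccos]
  rw [show (1 : ℝ) - (3 / 5) ^ 2 = (4 / 5) ^ 2 by norm_num]
  exact Real.sqrt_sq (by norm_num)

/-- The sequence `2^(-k) cos (k θ)`. -/
lemma stab_cos : Stab (PowerSeries.mk (fun k : ℕ => (1 / 2 : ℝ) ^ k * Real.cos (k * th))) := by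
  refine ⟨C 20 + C (-6) * X, C 20 + C (-12) * X + C 5 * X * X,
    PowerSeries.mk (fun k : ℕ => (1 / 2 : ℝ) ^ k * Real.sin (((k + 1 : ℕ) : ℝ) * th) / 16),
    ?_, ?_, ?_⟩
  · unfold EL.L1
    simp only [PowerSeries.coeff_mk]
    refine Summable.of_nonneg_of_le (fun _ => abs_nonneg _) (fun k => ?_)
      (summable_geometric_of_lt_one (r := 1 / 2) (by norm_num) (by norm_num))
    rw [abs_div, abs_mul, abs_of_pos (by positivity : (0 : ℝ) < (1 / 2) ^ k)]
    have h1 := Real.abs_sin_le_one (((k + 1 : ℕ) : ℝ) * th)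
    have h2 : (0 : ℝ) < (1 / 2) ^ k := by positivity
    have h3 : |(16 : ℝ)| = 16 := by norm_num
    rw [h3, div_le_iff₀ (by norm_num)]
    nlinarith
  · simp only [zp_add, zp_mul, zp_C, zp_X]
    rw [mk_mul_quad (e := 1) (f := 0)]
    · simp
    · have := sin_th
      simp [this]
      norm_num
    · have h := sin_rec 0
      rw [cos_th] at h
      push_cast at h ⊢
      norm_num at h ⊢
      rw [h, sin_th]
      norm_num
    · intro n
      have h := sin_rec (n + 1)
      rw [cos_th] at h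
      have e1 : ((n + 2 + 1 : ℕ) : ℝ) = ((n + 1 + 2 : ℕ) : ℝ) := by push_cast; ring
      have e2 : ((n + 1 + 1 : ℕ) : ℝ) = ((n + 1 + 1 : ℕ) : ℝ) := rfl
      rw [e1, h]
      push_cast
      ring
  · simp only [zp_add, zp_mul, zp_C, zp_X]
    rw [mk_mul_quad (e := 20) (f := -6)]
    · simp
    · push_cast; simp
    · have := cos_th
      simp [this]
      norm_num
    · intro n
      have h := cos_rec n
      rw [cos_th] at h
      rw [h]
      push_cast
      ring

lemma mk_indexMul (a : ℕ → ℝ) : PowerSeries.mk (fun k => (k : ℝ) * a k)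
    = PowerSeries.X * PowerSeries.derivative ℝ (PowerSeries.mk a) := by
  ext n
  cases n with
  | zero => simp
  | succ n =>
    rw [PowerSeries.coeff_succ_X_mul]
    rw [PowerSeries.coeff_mk, PowerSeries.coeff_derivative, PowerSeries.coeff_mk]
    push_cast; ring

lemma stab_bd : Stab (PowerSeries.mk bd) := by
  have h := ((Stab.zp (C 3)).mul stab_geom).add (Stab.zp (C (-3)))
  have e : zp (C 3) * PowerSeries.mk (fun k : ℕ => (1 / 2 : ℝ) ^ k) + zp (C (-3))
      = PowerSeries.mk bd := by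
    rw [zp_C, zp_C]
    ext n
    rw [map_add, PowerSeries.coeff_C_mul, PowerSeries.coeff_mk, PowerSeries.coeff_mk,
      PowerSeries.coeff_C]
    unfold bd
    split_ifs with hn
    · subst hn; norm_num
    · push_cast; ring
  rwa [e] at h

lemma stab_cd : Stab (PowerSeries.mk cd) := by
  have h := ((stab_geom.add (stab_geom.indexMul).neg).add stab_cos.indexMul).add
    (Stab.zp (C (-1)))
  rw [← mk_indexMul, ← mk_indexMul] at h
  have e : PowerSeries.mk (fun k : ℕ => (1 / 2 : ℝ) ^ k)
      + -PowerSeries.mk (fun k : ℕ => (k : ℝ) * (1 / 2 : ℝ) ^ k)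
      + PowerSeries.mk (fun k : ℕ => (k : ℝ) * ((1 / 2 : ℝ) ^ k * Real.cos (k * th)))
      + zp (C (-1)) = PowerSeries.mk cd := by
    rw [zp_C]
    ext n
    simp only [map_add, map_neg, PowerSeries.coeff_mk, PowerSeries.coeff_C]
    unfold cd
    split_ifs with hn
    · subst hn; norm_num
    · push_cast; ring
  rwa [e] at h

lemma mk_h2 (b c : ℕ → ℝ) : PowerSeries.mk (h2 b c)
    = PowerSeries.expand 3 three_ne_zero (PowerSeries.mk b)
      + PowerSeries.X * PowerSeries.expand 3 three_ne_zero (PowerSeries.mk c) := by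
  ext k
  have hk : k = 3 * (k / 3) + k % 3 := (Nat.div_add_mod k 3).symm
  have hlt : k % 3 < 3 := Nat.mod_lt _ (by norm_num)
  generalize k / 3 = n at hk
  generalize k % 3 = r at hk hlt
  rw [map_add, PowerSeries.coeff_mk]
  interval_cases r
  · rw [hk, add_zero, h2_0, PowerSeries.coeff_expand_mul, PowerSeries.coeff_mk]
    rcases n with _ | n
    · simp
    · have : 3 * (n + 1) = (3 * n + 2) + 1 := by ring
      rw [this, PowerSeries.coeff_succ_X_mul, PowerSeries.coeff_expand_of_not_dvd, add_zero]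
      omega
  · rw [hk, h2_1, PowerSeries.coeff_succ_X_mul, PowerSeries.coeff_expand_mul,
      PowerSeries.coeff_expand_of_not_dvd, zero_add, PowerSeries.coeff_mk]
    omega
  · rw [hk, h2_2]
    have : 3 * n + 2 = (3 * n + 1) + 1 := by ring
    rw [this, PowerSeries.coeff_succ_X_mul, PowerSeries.coeff_expand_of_not_dvd,
      PowerSeries.coeff_expand_of_not_dvd, add_zero]
    · omega
    · omega

theorem stab_h2 : Stab (PowerSeries.mk (h2 bd cd)) := by
  rw [mk_h2]
  have h := (Stab.zp X).mul stab_cd.expand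
  rw [zp_X] at h
  exact stab_bd.expand.add h

theorem summable_h2d : Summable (fun k => |h2 bd cd k|) := by
  have := stab_h2.L1
  unfold L1 at this
  simpa only [PowerSeries.coeff_mk] using this

theorem summable_qsd : Summable (fun k => |qs cd k|) := by
  refine Summable.of_nonneg_of_le (fun _ => abs_nonneg _) (fun k => ?_) summable_h2d
  have hk : k = 3 * (k / 3) + k % 3 := (Nat.div_add_mod k 3).symm
  have hlt : k % 3 < 3 := Nat.mod_lt _ (by norm_num)
  generalize k / 3 = n at hk
  generalize k % 3 = r at hk hlt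
  interval_cases r
  · rw [hk, add_zero, qs_0, h2_0]
    have h1 : 0 ≤ max (cd n) 0 := le_max_right _ _
    rw [abs_of_nonneg (by positivity), abs_of_nonneg (bd_nonneg n)]
    have := bd_dom n
    linarith
  · rw [hk, qs_1, abs_zero]; exact abs_nonneg _
  · rw [hk, qs_2, abs_zero]; exact abs_nonneg _

end Pool.Agent.Y307.EL
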