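import Mathlib
import Pool.Agent.Y307.EL.Stab
import Pool.Agent.Results.MP_c74d57_an.MedianCounterexample

set_option autoImplicit false

namespace Pool.Agent.Y307.EL

open Polynomial
open Pool.Agent.Results.MP_c74d57_an.MedianCounterexample
  (MSeq IsL1 conv norm1 IsTransform IsRational OneBlock IsOptimal RatPS)

/-- The transform of an entry as a power series. -/
noncomputable def PS {p q : ℕ} (X : MSeq p q) (i : Fin p) (j : Fin q) : PowerSeries ℝ :=
  PowerSeries.mk (fun k => X k i j)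

/-- The matrix sequence with given transforms. -/
noncomputable def ofPS {p q : ℕ} (A : Fin p → Fin q → PowerSeries ℝ) : MSeq p q :=
  fun k => Matrix.of fun i j => PowerSeries.coeff k (A i j)

lemma PS_ofPS {p q : ℕ} (A : Fin p → Fin q → PowerSeries ℝ) (i : Fin p) (j : Fin q) :
    PS (ofPS A) i j = A i j := by
  ext k
  simp [PS, ofPS]

lemma ofPS_apply {p q : ℕ} (A : Fin p → Fin q → PowerSeries ℝ) (k : ℕ) (i : Fin p) (j : Fin q) :
    ofPS A k i j = PowerSeries.coeff k (A i j) := rfl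

lemma PS_conv {p q r : ℕ} (X : MSeq p q) (Y : MSeq q r) (i : Fin p) (j : Fin r) :
    PS (conv X Y) i j = ∑ l, PS X i l * PS Y l j := by
  ext k
  rw [map_sum]
  simp only [PS, conv, PowerSeries.coeff_mk, PowerSeries.coeff_mul]
  rw [Matrix.sum_apply]
  simp only [Matrix.mul_apply, Finset.Nat.sum_antidiagonal_eq_sum_range_succ_mk]
  rw [Finset.sum_comm]

/-- The closed loop. -/
noncomputable def CL {p q r s : ℕ} (H : MSeq p q) (U : MSeq p r) (V : MSeq s q) (Q : MSeq r s) :
    MSeq p q := H - conv (conv U Q) V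

lemma PS_CL {p q r s : ℕ} (H : MSeq p q) (U : MSeq p r) (V : MSeq s q) (Q : MSeq r s)
    (i : Fin p) (j : Fin q) :
    PS (CL H U V Q) i j
      = PS H i j - ∑ l, (∑ m, PS U i m * PS Q m l) * PS V l j := by
  have h : PS (CL H U V Q) i j = PS H i j - PS (conv (conv U Q) V) i j := by
    ext k; simp [PS, CL]
  rw [h, PS_conv]
  congr 1
  apply Finset.sum_congr rfl
  intro l _
  rw [PS_conv]

lemma coeff_PS {p q : ℕ} (X : MSeq p q) (i : Fin p) (j : Fin q) (k : ℕ) :
    PowerSeries.coeff k (PS X i j) = X k i j := by simp [PS]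

/-- The size of one entry. -/
noncomputable def ent {p q : ℕ} (X : MSeq p q) (i : Fin p) (j : Fin q) : ℝ := ∑' k, |X k i j|

lemma ent_nonneg {p q : ℕ} (X : MSeq p q) (i : Fin p) (j : Fin q) : 0 ≤ ent X i j :=
  tsum_nonneg (fun _ => abs_nonneg _)

lemma row_le_norm1 {p q : ℕ} (X : MSeq p q) (i : Fin p) : ∑ j, ent X i j ≤ norm1 X := by
  unfold norm1
  exact le_ciSup (f := fun i : Fin p => ∑ j : Fin q, ∑' k : ℕ, |X k i j|)
    (Set.finite_range _).bddAbove i

lemma norm1_le {p q : ℕ} [Nonempty (Fin p)] (X : MSeq p q) (B : ℝ)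
    (h : ∀ i, ∑ j, ent X i j ≤ B) : norm1 X ≤ B := by
  unfold norm1
  exact ciSup_le h

lemma ent_le_norm1 {p q : ℕ} (X : MSeq p q) (i : Fin p) (j : Fin q) : ent X i j ≤ norm1 X :=
  (Finset.single_le_sum (f := fun j => ent X i j) (fun j _ => ent_nonneg X i j)
    (Finset.mem_univ j)).trans (row_le_norm1 X i)

lemma two_ent_le_norm1 {p q : ℕ} (X : MSeq p q) (i : Fin p) (j j' : Fin q) (hj : j ≠ j') :
    ent X i j + ent X i j' ≤ norm1 X := by
  refine le_trans ?_ (row_le_norm1 X i)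
  rw [← Finset.sum_pair (f := fun j => ent X i j) hj]
  exact Finset.sum_le_sum_of_subset_of_nonneg (Finset.subset_univ _)
    (fun k _ _ => ent_nonneg X i k)

/-! ### Rationality -/

/-- The transforms of all entries are rational, in the form used here. -/
lemma isRational_of {p q : ℕ} {X : MSeq p q}
    (h : ∀ i j, ∃ P Q : ℝ[X], Q ≠ 0 ∧ PS X i j * (Q : PowerSeries ℝ) = (P : PowerSeries ℝ)) :
    IsRational X :=
  Pool.Agent.Results.MP_c74d57_an.MedianCounterexample.isRational_of_entries h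

lemma Stab.rat {f : PowerSeries ℝ} (h : Stab f) :
    ∃ P Q : ℝ[X], Q ≠ 0 ∧ f * (Q : PowerSeries ℝ) = (P : PowerSeries ℝ) := by
  obtain ⟨P, Q, g, h1, h2, h3⟩ := h
  refine ⟨P.map (Int.castRingHom ℝ), Q.map (Int.castRingHom ℝ), ?_, h3⟩
  intro h0
  have : EL.zp Q = 0 := by unfold EL.zp; rw [h0]; simp
  rw [this, mul_zero] at h2
  exact zero_ne_one h2

lemma rat_of_real_poly (P : ℝ[X]) :
    ∃ P' Q : ℝ[X], Q ≠ 0 ∧ (P : PowerSeries ℝ) * (Q : PowerSeries ℝ) = (P' : PowerSeries ℝ) :=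
  ⟨P, 1, one_ne_zero, by simp⟩

lemma isPRec_of_isRational {p q : ℕ} {X : MSeq p q} (h : IsRational X) (i : Fin p) (j : Fin q) :
    IsPRec (fun k => X k i j) := by
  obtain ⟨R, hR⟩ := h
  exact isPRec_of_rat (RatFunc.denom_ne_zero (R i j)) (hR i j)

/-- If the transform of `V` has polynomial entries then its rational transform is given by
these polynomials. -/
lemma transform_eq {p q : ℕ} {V : MSeq p q} {A : Fin p → Fin q → ℤ[X]}
    (hV : ∀ i j, PS V i j = zp (A i j)) {R : Matrix (Fin p) (Fin q) (RatFunc ℝ)}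
    (hR : IsTransform R V) (i : Fin p) (j : Fin q) :
    R i j = algebraMap ℝ[X] (RatFunc ℝ) ((A i j).map (Int.castRingHom ℝ)) := by
  have h1 := hR i j
  have h2 : PowerSeries.mk (fun k => V k i j) = zp (A i j) := hV i j
  rw [h2] at h1
  have h3 : ((A i j).map (Int.castRingHom ℝ)) * (R i j).denom = (R i j).num := by
    apply Polynomial.coe_injective ℝ
    rw [Polynomial.coe_mul]
    exact h1
  have h4 := RatFunc.num_div_denom (R i j)
  have hd : algebraMap ℝ[X] (RatFunc ℝ) (R i j).denom ≠ 0 :=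
    RatFunc.algebraMap_ne_zero (RatFunc.denom_ne_zero (R i j))
  refine h4.symm.trans ?_
  rw [div_eq_iff hd, ← map_mul, h3]

lemma transform_of {p q : ℕ} {V : MSeq p q} {A : Fin p → Fin q → ℤ[X]}
    (hV : ∀ i j, PS V i j = zp (A i j)) :
    IsTransform (Matrix.of fun i j => algebraMap ℝ[X] (RatFunc ℝ)
      ((A i j).map (Int.castRingHom ℝ))) V := by
  intro i j
  have h2 : PowerSeries.mk (fun k => V k i j) = zp (A i j) := hV i j
  rw [h2]
  simp [zp]

/-- Polynomial matrices with integer coefficients. -/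
def IsIntPoly {p q : ℕ} (X : MSeq p q) : Prop :=
  (∃ K : ℕ, ∀ k, K ≤ k → X k = 0) ∧ ∀ k i j, ∃ z : ℤ, X k i j = z

lemma isIntPoly_of {p q : ℕ} {V : MSeq p q} {A : Fin p → Fin q → ℤ[X]}
    (hV : ∀ i j, PS V i j = zp (A i j)) : IsIntPoly V := by
  have h : ∀ k i j, V k i j = ((A i j).coeff k : ℝ) := by
    intro k i j
    rw [← coeff_zp, ← hV, coeff_PS]
  constructor
  · refine ⟨∑ i, ∑ j, ((A i j).natDegree + 1), fun k hk => ?_⟩
    ext i j
    rw [h, Polynomial.coeff_eq_zero_of_natDegree_lt]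
    · simp
    · have h1 : (A i j).natDegree + 1 ≤ ∑ j, ((A i j).natDegree + 1) :=
        Finset.single_le_sum (f := fun j => (A i j).natDegree + 1) (fun _ _ => Nat.zero_le _)
          (Finset.mem_univ j)
      have h2 : ∑ j, ((A i j).natDegree + 1) ≤ ∑ i, ∑ j, ((A i j).natDegree + 1) :=
        Finset.single_le_sum (f := fun i => ∑ j, ((A i j).natDegree + 1))
          (fun _ _ => Nat.zero_le _) (Finset.mem_univ i)
      omega
  · intro k i j
    exact ⟨_, h k i j⟩

lemma isL1_of_stab {p q : ℕ} {X : MSeq p q} (h : ∀ i j, L1 (PS X i j)) : IsL1 X := by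
  intro i j
  have := h i j
  unfold L1 at this
  simpa only [coeff_PS] using this

/-! ### Rank -/

lemma rank_eq_of_left {p q : ℕ} (R : Matrix (Fin p) (Fin q) (RatFunc ℝ))
    (A : Matrix (Fin q) (Fin p) (RatFunc ℝ)) (h : A * R = 1) : R.rank = q := by
  apply le_antisymm (Matrix.rank_le_width R)
  have h1 := Matrix.rank_mul_le_right A R
  rw [h, Matrix.rank_one, Fintype.card_fin] at h1
  exact h1

lemma rank_eq_of_right {p q : ℕ} (R : Matrix (Fin p) (Fin q) (RatFunc ℝ))
    (B : Matrix (Fin q) (Fin p) (RatFunc ℝ)) (h : R * B = 1) : R.rank = p := by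
  apply le_antisymm (Matrix.rank_le_height R)
  have h1 := Matrix.rank_mul_le_left R B
  rw [h, Matrix.rank_one, Fintype.card_fin] at h1
  exact h1

/-- A nonzero right kernel vector. -/
lemma rank_ne_of_right_ker {p q : ℕ} (R : Matrix (Fin p) (Fin q) (RatFunc ℝ))
    (u : Fin q → RatFunc ℝ) (j : Fin q) (hu : u j ≠ 0) (h : ∀ i, ∑ l, R i l * u l = 0) :
    R.rank ≠ q := by
  intro hr
  have h1 := Matrix.rank_add_rank_le_card_of_mul_eq_zero
    (A := R) (B := Matrix.of fun (l : Fin q) (_ : Fin 1) => u l) (by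
      ext i k
      rw [Matrix.mul_apply]
      exact h i)
  have h2 : (Matrix.of fun (l : Fin q) (_ : Fin 1) => u l).rank = 1 := by
    apply rank_eq_of_left _ (Matrix.of fun (_ : Fin 1) (l : Fin q) => if l = j then (u j)⁻¹ else 0)
    ext a b
    fin_cases a; fin_cases b
    simp [Matrix.mul_apply, hu]
  rw [h2, hr, Fintype.card_fin] at h1
  omega

/-- A nonzero left kernel vector. -/
lemma rank_ne_of_left_ker {p q : ℕ} (R : Matrix (Fin p) (Fin q) (RatFunc ℝ))
    (u : Fin p → RatFunc ℝ) (j : Fin p) (hu : u j ≠ 0) (h : ∀ i, ∑ l, u l * R l i = 0) :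
    R.rank ≠ p := by
  intro hr
  have h1 := Matrix.rank_add_rank_le_card_of_mul_eq_zero
    (A := Matrix.of fun (_ : Fin 1) (l : Fin p) => u l) (B := R) (by
      ext k i
      rw [Matrix.mul_apply]
      exact h i)
  have h2 : (Matrix.of fun (_ : Fin 1) (l : Fin p) => u l).rank = 1 := by
    apply rank_eq_of_right _ (Matrix.of fun (l : Fin p) (_ : Fin 1) => if l = j then (u j)⁻¹ else 0)
    ext a b
    fin_cases a; fin_cases b
    simp [Matrix.mul_apply, hu]
  rw [h2, hr, Fintype.card_fin] at h1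
  omega

/-! ### Sharp minima -/

/-- `Q` is a sharp minimum in the entry `(m, l)`. -/
def Sharp {p q r s : ℕ} (H : MSeq p q) (U : MSeq p r) (V : MSeq s q) (Qo : MSeq r s)
    (m : Fin r) (l : Fin s) : Prop :=
  IsL1 Qo ∧ ∀ Q : MSeq r s, IsL1 Q →
    norm1 (H - conv (conv U Qo) V) + 1 / 2 * ∑' k, |Q k m l - Qo k m l|
      ≤ norm1 (H - conv (conv U Q) V)

lemma Sharp.isOptimal {p q r s : ℕ} {H : MSeq p q} {U : MSeq p r} {V : MSeq s q} {Qo : MSeq r s}
    {m : Fin r} {l : Fin s} (h : Sharp H U V Qo m l) : IsOptimal H U V Qo := by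
  refine ⟨h.1, fun Q' hQ' => ?_⟩
  have h1 := h.2 Q' hQ'
  have h2 : 0 ≤ ∑' k, |Q' k m l - Qo k m l| := tsum_nonneg (fun _ => abs_nonneg _)
  linarith

lemma Sharp.entry {p q r s : ℕ} {H : MSeq p q} {U : MSeq p r} {V : MSeq s q} {Qo : MSeq r s}
    {m : Fin r} {l : Fin s} (h : Sharp H U V Qo m l) {Q : MSeq r s} (hQ : IsOptimal H U V Q)
    (k : ℕ) : Q k m l = Qo k m l := by
  have h1 := hQ.2 Qo h.1
  have h2 := h.2 Q hQ.1
  have h3 : ∑' k, |Q k m l - Qo k m l| ≤ 0 := by linarith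
  have h4 : Summable (fun k => |Q k m l - Qo k m l|) :=
    ((hQ.1 m l).of_abs.sub (h.1 m l).of_abs).abs
  have h5 : |Q k m l - Qo k m l| ≤ 0 :=
    (h4.le_tsum k (fun _ _ => abs_nonneg _)).trans h3
  have h6 := abs_nonpos_iff.mp h5
  linarith

end Pool.Agent.Y307.EL
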