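import Mathlib
import Pool.Agent.Y307.EL.Mat

set_option autoImplicit false

namespace Pool.Agent.Y307.EL

open Polynomial
open Pool.Agent.Results.MP_c74d57_an.MedianCounterexample
  (MSeq IsL1 conv norm1 IsTransform IsRational OneBlock IsOptimal RatPS)

/-- The two polynomials of the scalar problem. -/
noncomputable def w3 : ℤ[X] := C 3
noncomputable def w22 : ℤ[X] := C 2 + C 2 * X

lemma coeff_w3 (f : PowerSeries ℝ) (k : ℕ) :
    PowerSeries.coeff k (f * zp w3) = 3 * PowerSeries.coeff k f := by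
  unfold w3
  rw [zp_C, mul_comm, PowerSeries.coeff_C_mul]
  push_cast; ring

lemma coeff_w22 (f : PowerSeries ℝ) (k : ℕ) :
    PowerSeries.coeff k (f * zp w22)
      = 2 * PowerSeries.coeff k f + 2 * prev (fun k => PowerSeries.coeff k f) k := by
  unfold w22
  rw [zp_add, zp_mul, zp_C, zp_X, mul_comm]
  have : (PowerSeries.C ((2 : ℤ) : ℝ) + PowerSeries.C ((2 : ℤ) : ℝ) * PowerSeries.X) * f
      = PowerSeries.C ((2 : ℤ) : ℝ) * f + PowerSeries.C ((2 : ℤ) : ℝ) * (PowerSeries.X * f) := by
    ring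
  rw [this, map_add, PowerSeries.coeff_C_mul, PowerSeries.coeff_C_mul]
  push_cast
  congr 2
  rcases k with _ | k
  · simp [prev]
  · rw [PowerSeries.coeff_succ_X_mul, prev_succ]

/-! ### The row instance -/

section Row

variable (nz nw nu ny : ℕ)

noncomputable def URz (i : Fin nz) (m : Fin nu) : ℤ[X] := if i.val = m.val then 1 else 0

noncomputable def VRz (l : Fin ny) (j : Fin nw) : ℤ[X] :=
  if l.val = 0 then (if j.val = 0 then w3 else if j.val = 1 then w22 else 0)
  else (if j.val = l.val + 1 then 1 else 0)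

noncomputable def HRp (i : Fin nz) (j : Fin nw) : PowerSeries ℝ :=
  if i.val = 0 then (if j.val = 1 then PowerSeries.mk (h2 bd cd) else 0) else 0

noncomputable def UR : MSeq nz nu := ofPS fun i m => zp (URz nz nu i m)
noncomputable def VR : MSeq ny nw := ofPS fun l j => zp (VRz nw ny l j)
noncomputable def HR : MSeq nz nw := ofPS fun i j => HRp nz nw i j

/-- The optimal solution. -/
noncomputable def Qs (nu ny : ℕ) : MSeq nu ny :=
  ofPS fun m l => if m.val = 0 ∧ l.val = 0 then PowerSeries.mk (qs cd) else 0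

variable {nz nw nu ny}

lemma sum_UR (Q : MSeq nu ny) (i : Fin nz) (hi : i.val = 0) (m0 : Fin nu) (hm0 : m0.val = 0)
    (l : Fin ny) : ∑ m, PS (UR nz nu) i m * PS Q m l = PS Q m0 l := by
  rw [Finset.sum_eq_single m0]
  · unfold UR URz
    rw [PS_ofPS, if_pos (by omega), zp_one, one_mul]
  · intro m _ hm
    unfold UR URz
    rw [PS_ofPS, if_neg, zp_zero, zero_mul]
    intro h
    exact hm (Fin.ext (by omega))
  · intro h; exact absurd (Finset.mem_univ _) h

lemma CLR_00 (Q : MSeq nu ny) (i : Fin nz) (hi : i.val = 0) (j : Fin nw) (hj : j.val = 0)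
    (m0 : Fin nu) (hm0 : m0.val = 0) (l0 : Fin ny) (hl0 : l0.val = 0) :
    PS (CL (HR nz nw) (UR nz nu) (VR nw ny) Q) i j = - (PS Q m0 l0 * zp w3) := by
  rw [PS_CL]
  have h : ∑ l, (∑ m, PS (UR nz nu) i m * PS Q m l) * PS (VR nw ny) l j
      = PS Q m0 l0 * zp w3 := by
    rw [Finset.sum_eq_single l0]
    · rw [sum_UR Q i hi m0 hm0]
      unfold VR VRz
      rw [PS_ofPS, if_pos hl0, if_pos hj]
    · intro l _ hl
      unfold VR VRz
      rw [PS_ofPS, if_neg, if_neg, zp_zero, mul_zero]
      · omega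
      · intro h; exact hl (Fin.ext (by omega))
    · intro h; exact absurd (Finset.mem_univ _) h
  rw [h]
  unfold HR HRp
  rw [PS_ofPS, if_pos hi, if_neg (by omega), zero_sub]

lemma CLR_01 (Q : MSeq nu ny) (i : Fin nz) (hi : i.val = 0) (j : Fin nw) (hj : j.val = 1)
    (m0 : Fin nu) (hm0 : m0.val = 0) (l0 : Fin ny) (hl0 : l0.val = 0) :
    PS (CL (HR nz nw) (UR nz nu) (VR nw ny) Q) i j
      = PowerSeries.mk (h2 bd cd) - PS Q m0 l0 * zp w22 := by
  rw [PS_CL]
  have h : ∑ l, (∑ m, PS (UR nz nu) i m * PS Q m l) * PS (VR nw ny) l j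
      = PS Q m0 l0 * zp w22 := by
    rw [Finset.sum_eq_single l0]
    · rw [sum_UR Q i hi m0 hm0]
      unfold VR VRz
      rw [PS_ofPS, if_pos hl0, if_neg (by omega), if_pos hj]
    · intro l _ hl
      unfold VR VRz
      have hl' : l.val ≠ 0 := fun h => hl (Fin.ext (by omega))
      rw [PS_ofPS, if_neg hl', if_neg (by omega), zp_zero, mul_zero]
    · intro h; exact absurd (Finset.mem_univ _) h
  rw [h]
  unfold HR HRp
  rw [PS_ofPS, if_pos hi, if_pos hj]

lemma ent_eq_N1 {p q : ℕ} (X : MSeq p q) (i : Fin p) (j : Fin q) (s : ℝ) (f : PowerSeries ℝ)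
    (h : PS X i j = PowerSeries.mk (h1 s) - f * zp w3) :
    ent X i j = N1 s (fun k => PowerSeries.coeff k f) := by
  unfold ent N1
  apply tsum_congr
  intro k
  rw [← coeff_PS X i j k, h, map_sub, coeff_w3, PowerSeries.coeff_mk]
  rfl

lemma ent_eq_N2 {p q : ℕ} (X : MSeq p q) (i : Fin p) (j : Fin q) (b c : ℕ → ℝ)
    (f : PowerSeries ℝ) (h : PS X i j = PowerSeries.mk (h2 b c) - f * zp w22) :
    ent X i j = N2 b c (fun k => PowerSeries.coeff k f) := by
  unfold ent N2
  apply tsum_congr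
  intro k
  rw [← coeff_PS X i j k, h, map_sub, coeff_w22, PowerSeries.coeff_mk]
  rfl

lemma mk_h1_zero : PowerSeries.mk (h1 0) = 0 := by
  ext k; simp [h1]

lemma PS_Qs (m : Fin nu) (l : Fin ny) : PS (Qs nu ny) m l
    = if m.val = 0 ∧ l.val = 0 then PowerSeries.mk (qs cd) else 0 := by
  unfold Qs; rw [PS_ofPS]

lemma isL1_Qs : IsL1 (Qs nu ny) := by
  apply isL1_of_stab
  intro i j
  rw [PS_Qs]
  unfold L1
  split_ifs
  · simpa only [PowerSeries.coeff_mk] using summable_qsd
  · simp

lemma Qs_apply (m : Fin nu) (l : Fin ny) (hm : m.val = 0) (hl : l.val = 0) (k : ℕ) :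
    Qs nu ny k m l = qs cd k := by
  rw [← coeff_PS (Qs nu ny) m l k, PS_Qs, if_pos ⟨hm, hl⟩, PowerSeries.coeff_mk]

lemma CLR_Qs (i : Fin nz) (j : Fin nw) (h : i.val ≠ 0 ∨ 2 ≤ j.val) :
    PS (CL (HR nz nw) (UR nz nu) (VR nw ny) (Qs nu ny)) i j = 0 := by
  rw [PS_CL]
  have h2 : ∀ l, (∑ m, PS (UR nz nu) i m * PS (Qs nu ny) m l) * PS (VR nw ny) l j = 0 := by
    intro l
    by_cases hi : i.val = 0
    · have hj : 2 ≤ j.val := by
        rcases h with h | h
        · exact absurd hi h
        · exact h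
      by_cases hl : l.val = 0
      · unfold VR VRz
        rw [PS_ofPS, if_pos hl, if_neg (by omega), if_neg (by omega), zp_zero, mul_zero]
      · have : ∑ m, PS (UR nz nu) i m * PS (Qs nu ny) m l = 0 := by
          apply Finset.sum_eq_zero
          intro m _
          rw [PS_Qs, if_neg (by tauto), mul_zero]
        rw [this, zero_mul]
    · have : ∑ m, PS (UR nz nu) i m * PS (Qs nu ny) m l = 0 := by
        apply Finset.sum_eq_zero
        intro m _
        by_cases hm : m.val = 0
        · unfold UR URz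
          rw [PS_ofPS, if_neg (by omega), zp_zero, zero_mul]
        · rw [PS_Qs, if_neg (by tauto), mul_zero]
      rw [this, zero_mul]
  rw [Finset.sum_eq_zero (fun l _ => h2 l), sub_zero]
  unfold HR HRp
  rw [PS_ofPS]
  split_ifs with h3 h4
  · omega
  · rfl
  · rfl

lemma ent_zero {p q : ℕ} (X : MSeq p q) (i : Fin p) (j : Fin q) (h : PS X i j = 0) :
    ent X i j = 0 := by
  unfold ent
  have : ∀ k, |X k i j| = 0 := by
    intro k
    rw [← coeff_PS X i j k, h]; simp
  simp [this]

theorem sharp_row (h1nz : 1 ≤ nz) (h2nw : 2 ≤ nw) (m0 : Fin nu) (hm0 : m0.val = 0)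
    (l0 : Fin ny) (hl0 : l0.val = 0) :
    Sharp (HR nz nw) (UR nz nu) (VR nw ny) (Qs nu ny) m0 l0 := by
  refine ⟨isL1_Qs, fun Q hQ => ?_⟩
  have : Nonempty (Fin nz) := ⟨⟨0, by omega⟩⟩
  set i0 : Fin nz := ⟨0, by omega⟩ with hi0
  set j0 : Fin nw := ⟨0, by omega⟩ with hj0
  set j1 : Fin nw := ⟨1, by omega⟩ with hj1
  have hne : j0 ≠ j1 := by intro h; simp [hj0, hj1] at h
  -- the value for a general `Q`
  have hent : ∀ Q : MSeq nu ny, ent (CL (HR nz nw) (UR nz nu) (VR nw ny) Q) i0 j0
      + ent (CL (HR nz nw) (UR nz nu) (VR nw ny) Q) i0 j1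
      = N1 0 (fun k => Q k m0 l0) + N2 bd cd (fun k => Q k m0 l0) := by
    intro Q
    rw [ent_eq_N1 _ i0 j0 0 (PS Q m0 l0) (by
      rw [CLR_00 Q i0 rfl j0 rfl m0 hm0 l0 hl0, mk_h1_zero, zero_sub]),
      ent_eq_N2 _ i0 j1 bd cd (PS Q m0 l0) (CLR_01 Q i0 rfl j1 rfl m0 hm0 l0 hl0)]
    simp only [coeff_PS]
  have hup : norm1 (CL (HR nz nw) (UR nz nu) (VR nw ny) (Qs nu ny))
      ≤ N1 0 (qs cd) + N2 bd cd (qs cd) := by
    have hQs : (fun k => Qs nu ny k m0 l0) = qs cd := by
      funext k; exact Qs_apply m0 l0 hm0 hl0 k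
    have h0 := hent (Qs nu ny)
    rw [hQs] at h0
    rw [← h0]
    apply norm1_le
    intro i
    by_cases hi : i = i0
    · subst hi
      rw [Finset.sum_eq_add j0 j1 hne]
      · intro c _ hc
        apply ent_zero
        apply CLR_Qs
        right
        have h1 : c.val ≠ 0 := fun h => hc.1 (Fin.ext h)
        have h2 : c.val ≠ 1 := fun h => hc.2 (Fin.ext h)
        omega
      · intro h; exact absurd (Finset.mem_univ _) h
      · intro h; exact absurd (Finset.mem_univ _) h
    · rw [Finset.sum_eq_zero]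
      · exact add_nonneg (ent_nonneg _ _ _) (ent_nonneg _ _ _)
      · intro j _
        apply ent_zero
        apply CLR_Qs
        left
        intro h; exact hi (Fin.ext h)
  have hlow := two_ent_le_norm1 (CL (HR nz nw) (UR nz nu) (VR nw ny) Q) i0 j0 j1 hne
  rw [hent Q] at hlow
  have hc := core 0 bd cd (fun k => Q k m0 l0) bd_nonneg cd_le_bd bd_zero cd_zero summable_h2d
    summable_qsd (hQ m0 l0)
  have hd : ∑' k, |Q k m0 l0 - Qs nu ny k m0 l0| = ∑' k, |Q k m0 l0 - qs cd k| := by
    apply tsum_congr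
    intro k
    rw [Qs_apply m0 l0 hm0 hl0]
  have hn : 0 ≤ ∑' k, |Q k m0 l0 - qs cd k| := tsum_nonneg (fun _ => abs_nonneg _)
  show norm1 (CL (HR nz nw) (UR nz nu) (VR nw ny) (Qs nu ny)) + _
    ≤ norm1 (CL (HR nz nw) (UR nz nu) (VR nw ny) Q)
  rw [hd]
  linarith

lemma PS_UR (i : Fin nz) (m : Fin nu) : PS (UR nz nu) i m = zp (URz nz nu i m) := by
  unfold UR; rw [PS_ofPS]
lemma PS_VR (l : Fin ny) (j : Fin nw) : PS (VR nw ny) l j = zp (VRz nw ny l j) := by
  unfold VR; rw [PS_ofPS]

lemma stab_HR (i : Fin nz) (j : Fin nw) : Stab (PS (HR nz nw) i j) := by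
  unfold HR HRp
  rw [PS_ofPS]
  split_ifs
  · exact stab_h2
  · simpa [zp_zero] using Stab.zp 0
  · simpa [zp_zero] using Stab.zp 0

/-- Abbreviation for the embedding of integer polynomials into rational functions. -/
noncomputable def emb (P : ℤ[X]) : RatFunc ℝ :=
  algebraMap ℝ[X] (RatFunc ℝ) (P.map (Int.castRingHom ℝ))

lemma emb_zero : emb 0 = 0 := by simp [emb]
lemma emb_one : emb 1 = 1 := by simp [emb]
lemma emb_mul (P Q : ℤ[X]) : emb (P * Q) = emb P * emb Q := by simp [emb]
lemma emb_ne_zero {P : ℤ[X]} (h : P ≠ 0) : emb P ≠ 0 := by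
  unfold emb
  apply RatFunc.algebraMap_ne_zero
  intro h0
  exact h ((Polynomial.map_eq_zero_iff (RingHom.injective_int _)).mp h0)

lemma w3_ne : w3 ≠ 0 := by
  unfold w3; intro h
  have := congrArg (fun P : ℤ[X] => P.coeff 0) h
  simp at this

lemma w22_ne : w22 ≠ 0 := by
  unfold w22; intro h
  have := congrArg (fun P : ℤ[X] => P.coeff 0) h
  simp at this

lemma not_oneBlock_row (h2nw : 2 ≤ nw) : ¬ OneBlock (UR nz nu) (VR nw ny) := by
  rintro ⟨RU, RV, -, hRV, -, hr⟩
  have hT := transform_eq (V := VR nw ny) (A := VRz nw ny) PS_VR hRV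
  refine rank_ne_of_right_ker RV
    (fun j => if j.val = 0 then emb w22 else if j.val = 1 then - emb w3 else 0)
    ⟨0, by omega⟩ (by simpa using emb_ne_zero w22_ne) ?_ hr
  intro l
  set j0 : Fin nw := ⟨0, by omega⟩ with hj0
  set j1 : Fin nw := ⟨1, by omega⟩ with hj1
  have hne : j0 ≠ j1 := by intro h; simp [hj0, hj1] at h
  rw [Finset.sum_eq_add j0 j1 hne]
  · rw [hT, hT]
    change emb _ * _ + emb _ * _ = 0
    unfold VRz
    by_cases hl : l.val = 0
    · simp [hl, hj0, hj1]
      ring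
    · simp [hl, hj0, hj1, emb_zero]
  · intro c _ hc
    have h1 : c.val ≠ 0 := fun h => hc.1 (Fin.ext h)
    have h2 : c.val ≠ 1 := fun h => hc.2 (Fin.ext h)
    simp [h1, h2]
  · intro h; exact absurd (Finset.mem_univ _) h
  · intro h; exact absurd (Finset.mem_univ _) h

/-- The nondegeneracy assumption: `U` has full column rank and `V` full row rank. -/
def FullRank {p r s q : ℕ} (U : MSeq p r) (V : MSeq s q) : Prop :=
  ∃ (RU : Matrix (Fin p) (Fin r) (RatFunc ℝ)) (RV : Matrix (Fin s) (Fin q) (RatFunc ℝ)),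
    IsTransform RU U ∧ IsTransform RV V ∧ RU.rank = r ∧ RV.rank = s

lemma fullRank_row (hu : nu ≤ nz) (hy : ny < nw) : FullRank (UR nz nu) (VR nw ny) := by
  refine ⟨_, _, transform_of (A := URz nz nu) PS_UR, transform_of (A := VRz nw ny) PS_VR, ?_, ?_⟩
  · apply rank_eq_of_left _ (Matrix.of fun (m : Fin nu) (i : Fin nz) =>
      if i.val = m.val then (1 : RatFunc ℝ) else 0)
    ext m m'
    rw [Matrix.mul_apply, Finset.sum_eq_single ⟨m.val, by omega⟩]
    · simp only [Matrix.of_apply, if_true, one_mul, URz]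
      rw [Matrix.one_apply]
      by_cases h : m = m'
      · subst h; simp
      · have : m.val ≠ m'.val := fun h' => h (Fin.ext h')
        simp [h, this]
    · intro i _ hi
      have : i.val ≠ m.val := fun h => hi (Fin.ext h)
      simp [this]
    · intro h; exact absurd (Finset.mem_univ _) h
  · apply rank_eq_of_right _ (Matrix.of fun (j : Fin nw) (l : Fin ny) =>
      if l.val = 0 then (if j.val = 0 then (emb w3)⁻¹ else 0)
      else if j.val = l.val + 1 then (1 : RatFunc ℝ) else 0)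
    ext l l'
    rw [Matrix.mul_apply, Matrix.one_apply]
    change (∑ j : Fin nw, emb (VRz nw ny l j) * (if l'.val = 0 then
      (if j.val = 0 then (emb w3)⁻¹ else 0)
      else if j.val = l'.val + 1 then (1 : RatFunc ℝ) else 0)) = _
    by_cases hl' : l'.val = 0
    · rw [Finset.sum_eq_single ⟨0, by omega⟩]
      · rw [if_pos hl', if_pos rfl]
        by_cases h : l = l'
        · subst h
          rw [if_pos rfl]
          unfold VRz
          rw [if_pos hl', if_pos rfl, mul_inv_cancel₀ (emb_ne_zero w3_ne)]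
        · rw [if_neg h]
          have : l.val ≠ 0 := fun h' => h (Fin.ext (by omega))
          unfold VRz
          rw [if_neg this, if_neg (by simp), emb_zero, zero_mul]
      · intro j _ hj
        have : j.val ≠ 0 := fun h' => hj (Fin.ext h')
        rw [if_pos hl', if_neg this, mul_zero]
      · intro h; exact absurd (Finset.mem_univ _) h
    · rw [Finset.sum_eq_single ⟨l'.val + 1, by omega⟩]
      · rw [if_neg hl', if_pos rfl, mul_one]
        by_cases h : l = l'
        · subst h
          rw [if_pos rfl]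
          unfold VRz
          rw [if_neg hl', if_pos rfl, emb_one]
        · rw [if_neg h]
          have hne : l.val ≠ l'.val := fun h' => h (Fin.ext h')
          unfold VRz
          by_cases hl : l.val = 0
          · rw [if_pos hl, if_neg (by simp), if_neg (by simp; omega), emb_zero]
          · rw [if_neg hl, if_neg (by simp; omega), emb_zero]
      · intro j _ hj
        have : j.val ≠ l'.val + 1 := fun h' => hj (Fin.ext h')
        rw [if_neg hl', if_neg this, mul_zero]
      · intro h; exact absurd (Finset.mem_univ _) h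

end Row

end Pool.Agent.Y307.EL
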