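import Mathlib
import Pool.Agent.Y307.EL.Rows

set_option autoImplicit false

namespace Pool.Agent.Y307.EL

open Polynomial
open Pool.Agent.Results.MP_c74d57_an.MedianCounterexample
  (MSeq IsL1 conv norm1 IsTransform IsRational OneBlock IsOptimal RatPS)

/-! ### The column instance -/

section Col

variable (nz nw nu ny : ℕ)

noncomputable def UCz (i : Fin nz) (m : Fin nu) : ℤ[X] :=
  if m.val = 0 then (if i.val = 0 then w3 else if i.val = 1 then w22 else 0)
  else (if i.val = m.val + 1 then 1 else 0)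

noncomputable def VCz (l : Fin ny) (j : Fin nw) : ℤ[X] := if l.val = j.val then 1 else 0

noncomputable def HCp (i : Fin nz) (j : Fin nw) : PowerSeries ℝ :=
  if j.val = 0 then (if i.val = 0 then PowerSeries.mk (h1 (sbal bd cd))
    else if i.val = 1 then PowerSeries.mk (h2 bd cd) else 0) else 0

noncomputable def UC : MSeq nz nu := ofPS fun i m => zp (UCz nz nu i m)
noncomputable def VC : MSeq ny nw := ofPS fun l j => zp (VCz nw ny l j)
noncomputable def HC : MSeq nz nw := ofPS fun i j => HCp nz nw i j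

variable {nz nw nu ny}

lemma PS_UC (i : Fin nz) (m : Fin nu) : PS (UC nz nu) i m = zp (UCz nz nu i m) := by
  unfold UC; rw [PS_ofPS]
lemma PS_VC (l : Fin ny) (j : Fin nw) : PS (VC nw ny) l j = zp (VCz nw ny l j) := by
  unfold VC; rw [PS_ofPS]

lemma CLC (Q : MSeq nu ny) (i : Fin nz) (hi : i.val ≤ 1) (j : Fin nw) (hj : j.val = 0)
    (m0 : Fin nu) (hm0 : m0.val = 0) (l0 : Fin ny) (hl0 : l0.val = 0) :
    PS (CL (HC nz nw) (UC nz nu) (VC nw ny) Q) i j
      = (if i.val = 0 then PowerSeries.mk (h1 (sbal bd cd)) else PowerSeries.mk (h2 bd cd))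
        - PS Q m0 l0 * zp (if i.val = 0 then w3 else w22) := by
  rw [PS_CL]
  have h : ∑ l, (∑ m, PS (UC nz nu) i m * PS Q m l) * PS (VC nw ny) l j
      = PS Q m0 l0 * zp (if i.val = 0 then w3 else w22) := by
    rw [Finset.sum_eq_single l0]
    · rw [Finset.sum_eq_single m0]
      · rw [PS_UC, PS_VC]
        unfold UCz VCz
        have e1 : l0.val = j.val := by omega
        rw [if_pos hm0, if_pos e1, zp_one, mul_one, mul_comm]
        congr 2
        by_cases h0 : i.val = 0
        · rw [if_pos h0, if_pos h0]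
        · rw [if_neg h0, if_pos (by omega), if_neg h0]
      · intro m _ hm
        have hm' : m.val ≠ 0 := fun h => hm (Fin.ext (by omega))
        rw [PS_UC]
        unfold UCz
        rw [if_neg hm', if_neg (by omega), zp_zero, zero_mul]
      · intro h; exact absurd (Finset.mem_univ _) h
    · intro l _ hl
      have hl' : l.val ≠ 0 := fun h => hl (Fin.ext (by omega))
      rw [PS_VC]
      unfold VCz
      rw [if_neg (by omega), zp_zero, mul_zero]
    · intro h; exact absurd (Finset.mem_univ _) h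
  rw [h]
  congr 1
  unfold HC HCp
  rw [PS_ofPS, if_pos hj]
  by_cases h0 : i.val = 0
  · rw [if_pos h0, if_pos h0]
  · rw [if_neg h0, if_pos (by omega), if_neg h0]

lemma CLC_Qs (i : Fin nz) (j : Fin nw) (h : j.val ≠ 0 ∨ 2 ≤ i.val) :
    PS (CL (HC nz nw) (UC nz nu) (VC nw ny) (Qs nu ny)) i j = 0 := by
  rw [PS_CL]
  have h2 : ∀ l, (∑ m, PS (UC nz nu) i m * PS (Qs nu ny) m l) * PS (VC nw ny) l j = 0 := by
    intro l
    by_cases hl : l.val = 0
    · by_cases hj : j.val = 0
      · have hi : 2 ≤ i.val := by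
          rcases h with h | h
          · exact absurd hj h
          · exact h
        have : ∑ m, PS (UC nz nu) i m * PS (Qs nu ny) m l = 0 := by
          apply Finset.sum_eq_zero
          intro m _
          by_cases hm : m.val = 0
          · rw [PS_UC]
            unfold UCz
            rw [if_pos hm, if_neg (by omega), if_neg (by omega), zp_zero, zero_mul]
          · rw [PS_Qs, if_neg (by tauto), mul_zero]
        rw [this, zero_mul]
      · rw [PS_VC]
        unfold VCz
        rw [if_neg (by omega), zp_zero, mul_zero]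
    · have : ∑ m, PS (UC nz nu) i m * PS (Qs nu ny) m l = 0 := by
        apply Finset.sum_eq_zero
        intro m _
        rw [PS_Qs, if_neg (by tauto), mul_zero]
      rw [this, zero_mul]
  rw [Finset.sum_eq_zero (fun l _ => h2 l), sub_zero]
  unfold HC HCp
  rw [PS_ofPS]
  split_ifs with h3 h4 h5
  · omega
  · omega
  · rfl
  · rfl

theorem sharp_col (h1nw : 1 ≤ nw) (h2nz : 2 ≤ nz) (m0 : Fin nu) (hm0 : m0.val = 0)
    (l0 : Fin ny) (hl0 : l0.val = 0) :
    Sharp (HC nz nw) (UC nz nu) (VC nw ny) (Qs nu ny) m0 l0 := by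
  refine ⟨isL1_Qs, fun Q hQ => ?_⟩
  have : Nonempty (Fin nz) := ⟨⟨0, by omega⟩⟩
  set j0 : Fin nw := ⟨0, by omega⟩ with hj0
  set i0 : Fin nz := ⟨0, by omega⟩ with hi0
  set i1 : Fin nz := ⟨1, by omega⟩ with hi1
  have hent0 : ∀ Q : MSeq nu ny, ent (CL (HC nz nw) (UC nz nu) (VC nw ny) Q) i0 j0
      = N1 (sbal bd cd) (fun k => Q k m0 l0) := by
    intro Q
    rw [ent_eq_N1 _ i0 j0 (sbal bd cd) (PS Q m0 l0) (by
      have := CLC Q i0 (by simp [hi0]) j0 rfl m0 hm0 l0 hl0
      simpa [hi0] using this)]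
    simp only [coeff_PS]
  have hent1 : ∀ Q : MSeq nu ny, ent (CL (HC nz nw) (UC nz nu) (VC nw ny) Q) i1 j0
      = N2 bd cd (fun k => Q k m0 l0) := by
    intro Q
    rw [ent_eq_N2 _ i1 j0 bd cd (PS Q m0 l0) (by
      have := CLC Q i1 (by simp [hi1]) j0 rfl m0 hm0 l0 hl0
      simpa [hi1] using this)]
    simp only [coeff_PS]
  have hQs : (fun k => Qs nu ny k m0 l0) = qs cd := by
    funext k; exact Qs_apply m0 l0 hm0 hl0 k
  have hbal := balanced bd cd bd_dom cd_zero summable_h2d summable_qsd
  have hup : norm1 (CL (HC nz nw) (UC nz nu) (VC nw ny) (Qs nu ny)) ≤ N2 bd cd (qs cd) := by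
    apply norm1_le
    intro i
    rw [Finset.sum_eq_single j0]
    · by_cases h0 : i = i0
      · subst h0
        rw [hent0, hQs, hbal]
      · by_cases h1 : i = i1
        · subst h1
          rw [hent1, hQs]
        · rw [ent_zero _ i j0]
          · unfold N2
            exact tsum_nonneg (fun _ => abs_nonneg _)
          · apply CLC_Qs
            right
            have e0 : i.val ≠ 0 := fun h => h0 (Fin.ext h)
            have e1 : i.val ≠ 1 := fun h => h1 (Fin.ext h)
            omega
    · intro j _ hj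
      apply ent_zero
      apply CLC_Qs
      left
      intro h; exact hj (Fin.ext h)
    · intro h; exact absurd (Finset.mem_univ _) h
  have hl0' := ent_le_norm1 (CL (HC nz nw) (UC nz nu) (VC nw ny) Q) i0 j0
  have hl1' := ent_le_norm1 (CL (HC nz nw) (UC nz nu) (VC nw ny) Q) i1 j0
  rw [hent0 Q] at hl0'
  rw [hent1 Q] at hl1'
  have hc := core (sbal bd cd) bd cd (fun k => Q k m0 l0) bd_nonneg cd_le_bd bd_zero cd_zero
    summable_h2d summable_qsd (hQ m0 l0)
  have hd : ∑' k, |Q k m0 l0 - Qs nu ny k m0 l0| = ∑' k, |Q k m0 l0 - qs cd k| := by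
    apply tsum_congr
    intro k
    rw [Qs_apply m0 l0 hm0 hl0]
  show norm1 (CL (HC nz nw) (UC nz nu) (VC nw ny) (Qs nu ny)) + _
    ≤ norm1 (CL (HC nz nw) (UC nz nu) (VC nw ny) Q)
  rw [hd]
  rw [hbal] at hc
  linarith

lemma L1_HC (i : Fin nz) (j : Fin nw) : L1 (PS (HC nz nw) i j) := by
  unfold HC HCp
  rw [PS_ofPS]
  split_ifs
  · unfold L1
    simpa only [PowerSeries.coeff_mk] using summable_h1 (sbal bd cd)
  · exact stab_h2.L1
  · simp [L1]
  · simp [L1]

lemma rat_HC (i : Fin nz) (j : Fin nw) :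
    ∃ P Q : ℝ[X], Q ≠ 0 ∧ PS (HC nz nw) i j * (Q : PowerSeries ℝ) = (P : PowerSeries ℝ) := by
  unfold HC HCp
  rw [PS_ofPS]
  split_ifs
  · refine ⟨C (sbal bd cd), 1, one_ne_zero, ?_⟩
    rw [Polynomial.coe_C, Polynomial.coe_one, mul_one]
    ext k
    rw [PowerSeries.coeff_mk, PowerSeries.coeff_C]
    rfl
  · exact stab_h2.rat
  · exact ⟨0, 1, one_ne_zero, by simp⟩
  · exact ⟨0, 1, one_ne_zero, by simp⟩

lemma not_oneBlock_col (h2nz : 2 ≤ nz) : ¬ OneBlock (UC nz nu) (VC nw ny) := by
  rintro ⟨RU, RV, hRU, -, hr, -⟩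
  have hT := transform_eq (V := UC nz nu) (A := UCz nz nu) PS_UC hRU
  refine rank_ne_of_left_ker RU
    (fun j => if j.val = 0 then emb w22 else if j.val = 1 then - emb w3 else 0)
    ⟨0, by omega⟩ (by simpa using emb_ne_zero w22_ne) ?_ hr
  intro m
  set j0 : Fin nz := ⟨0, by omega⟩ with hj0
  set j1 : Fin nz := ⟨1, by omega⟩ with hj1
  have hne : j0 ≠ j1 := by intro h; simp [hj0, hj1] at h
  rw [Finset.sum_eq_add j0 j1 hne]
  · rw [hT, hT]
    change _ * emb _ + _ * emb _ = 0
    unfold UCz
    by_cases hl : m.val = 0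
    · simp [hl, hj0, hj1]
      ring
    · simp [hl, hj0, hj1, emb_zero]
  · intro c _ hc
    have h1 : c.val ≠ 0 := fun h => hc.1 (Fin.ext h)
    have h2 : c.val ≠ 1 := fun h => hc.2 (Fin.ext h)
    simp [h1, h2]
  · intro h; exact absurd (Finset.mem_univ _) h
  · intro h; exact absurd (Finset.mem_univ _) h

lemma fullRank_col (hu : nu < nz) (hy : ny ≤ nw) : FullRank (UC nz nu) (VC nw ny) := by
  refine ⟨_, _, transform_of (A := UCz nz nu) PS_UC, transform_of (A := VCz nw ny) PS_VC, ?_, ?_⟩
  · apply rank_eq_of_left _ (Matrix.of fun (l : Fin nu) (j : Fin nz) =>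
      if l.val = 0 then (if j.val = 0 then (emb w3)⁻¹ else 0)
      else if j.val = l.val + 1 then (1 : RatFunc ℝ) else 0)
    ext l' l
    rw [Matrix.mul_apply, Matrix.one_apply]
    change (∑ j : Fin nz, (if l'.val = 0 then
      (if j.val = 0 then (emb w3)⁻¹ else 0)
      else if j.val = l'.val + 1 then (1 : RatFunc ℝ) else 0) * emb (UCz nz nu j l)) = _
    by_cases hl' : l'.val = 0
    · rw [Finset.sum_eq_single ⟨0, by omega⟩]
      · rw [if_pos hl', if_pos rfl]
        by_cases h : l' = l
        · subst h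
          rw [if_pos rfl]
          unfold UCz
          rw [if_pos hl', if_pos rfl, inv_mul_cancel₀ (emb_ne_zero w3_ne)]
        · rw [if_neg h]
          have : l.val ≠ 0 := fun h' => h (Fin.ext (by omega))
          unfold UCz
          rw [if_neg this, if_neg (by simp), emb_zero, mul_zero]
      · intro j _ hj
        have : j.val ≠ 0 := fun h' => hj (Fin.ext h')
        rw [if_pos hl', if_neg this, zero_mul]
      · intro h; exact absurd (Finset.mem_univ _) h
    · rw [Finset.sum_eq_single ⟨l'.val + 1, by omega⟩]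
      · rw [if_neg hl', if_pos rfl, one_mul]
        by_cases h : l' = l
        · subst h
          rw [if_pos rfl]
          unfold UCz
          rw [if_neg hl', if_pos rfl, emb_one]
        · rw [if_neg h]
          have hne : l'.val ≠ l.val := fun h' => h (Fin.ext h')
          unfold UCz
          by_cases hl : l.val = 0
          · rw [if_pos hl, if_neg (by simp), if_neg (by simp; omega), emb_zero]
          · rw [if_neg hl, if_neg (by simp; omega), emb_zero]
      · intro j _ hj
        have : j.val ≠ l'.val + 1 := fun h' => hj (Fin.ext h')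
        rw [if_neg hl', if_neg this, zero_mul]
      · intro h; exact absurd (Finset.mem_univ _) h
  · apply rank_eq_of_right _ (Matrix.of fun (j : Fin nw) (l : Fin ny) =>
      if j.val = l.val then (1 : RatFunc ℝ) else 0)
    ext m m'
    rw [Matrix.mul_apply]
    change (∑ j : Fin nw, emb (VCz nw ny m j) *
      (if j.val = m'.val then (1 : RatFunc ℝ) else 0)) = _
    rw [Finset.sum_eq_single ⟨m'.val, by omega⟩]
    · rw [Matrix.one_apply]
      unfold VCz
      by_cases h : m = m'
      · subst h; simp [emb_one]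
      · have : m.val ≠ m'.val := fun h' => h (Fin.ext h')
        simp [h, this, emb_zero]
    · intro i _ hi
      have : i.val ≠ m'.val := fun h => hi (Fin.ext h)
      simp [this]
    · intro h; exact absurd (Finset.mem_univ _) h

end Col

/-! ### The smallest format -/

lemma rank_one_of_ne_zero {r : ℕ} (R : Matrix (Fin 1) (Fin r) (RatFunc ℝ)) (h : R ≠ 0) :
    R.rank = 1 := by
  obtain ⟨m, hm⟩ : ∃ m, R 0 m ≠ 0 := by
    by_contra hcon
    push Not at hcon
    apply h
    ext i m
    fin_cases i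
    exact hcon m
  apply rank_eq_of_right _ (Matrix.of fun (l : Fin r) (_ : Fin 1) => if l = m then (R 0 m)⁻¹ else 0)
  ext a b
  fin_cases a; fin_cases b
  simp [Matrix.mul_apply, hm]

lemma rank_one_of_ne_zero' {r : ℕ} (R : Matrix (Fin r) (Fin 1) (RatFunc ℝ)) (h : R ≠ 0) :
    R.rank = 1 := by
  obtain ⟨m, hm⟩ : ∃ m, R m 0 ≠ 0 := by
    by_contra hcon
    push Not at hcon
    apply h
    ext i m
    fin_cases m
    exact hcon i
  apply rank_eq_of_left _ (Matrix.of fun (_ : Fin 1) (l : Fin r) => if l = m then (R m 0)⁻¹ else 0)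
  ext a b
  fin_cases a; fin_cases b
  simp [Matrix.mul_apply, hm]

lemma eq_zero_of_transform_zero {p q : ℕ} {X : MSeq p q}
    (h : IsTransform (0 : Matrix (Fin p) (Fin q) (RatFunc ℝ)) X) (i : Fin p) (j : Fin q) :
    PS X i j = 0 := by
  have := h i j
  simpa [PS] using this

lemma small_format {nu ny : ℕ} (H : MSeq 1 1) (U : MSeq 1 nu) (V : MSeq ny 1)
    (hU : IsRational U) (hV : IsRational V) (hb : ¬ OneBlock U V) :
    ∃ Q : MSeq nu ny, IsOptimal H U V Q ∧ IsRational Q := by
  obtain ⟨RU, hRU⟩ := hU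
  obtain ⟨RV, hRV⟩ := hV
  have hzero : (∀ m, PS U 0 m = 0) ∨ (∀ l, PS V l 0 = 0) := by
    by_contra hcon
    push Not at hcon
    apply hb
    refine ⟨RU, RV, hRU, hRV, rank_one_of_ne_zero RU ?_, rank_one_of_ne_zero' RV ?_⟩
    · intro h
      rw [h] at hRU
      obtain ⟨m, hm⟩ := hcon.1
      exact hm (eq_zero_of_transform_zero hRU 0 m)
    · intro h
      rw [h] at hRV
      obtain ⟨m, hm⟩ := hcon.2
      exact hm (eq_zero_of_transform_zero hRV m 0)
  have hCL : ∀ Q : MSeq nu ny, CL H U V Q = H := by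
    intro Q
    have h : ∀ i j, PS (CL H U V Q) i j = PS H i j := by
      intro i j
      rw [PS_CL, Finset.sum_eq_zero, sub_zero]
      intro l _
      fin_cases i; fin_cases j
      rcases hzero with h | h
      · rw [Finset.sum_eq_zero, zero_mul]
        intro m _
        change PS U 0 m * _ = 0
        rw [h m, zero_mul]
      · change _ * PS V l 0 = 0
        rw [h l, mul_zero]
    funext k
    ext i j
    rw [← coeff_PS (CL H U V Q) i j k, h, coeff_PS]
  refine ⟨0, ⟨?_, ?_⟩, ?_⟩
  · intro i j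
    simp
  · intro Q' _
    have h1 : H - conv (conv U (0 : MSeq nu ny)) V = H := hCL 0
    have h2 : H - conv (conv U Q') V = H := hCL Q'
    rw [h1, h2]
  · apply isRational_of
    intro i j
    refine ⟨0, 1, one_ne_zero, ?_⟩
    have : PS (0 : MSeq nu ny) i j = 0 := by ext k; simp [PS]
    rw [this]; simp

end Pool.Agent.Y307.EL
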