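import Mathlib
import Pool.Agent.Y307.EL.Cols

set_option autoImplicit false

namespace Pool.Agent.Y307.EL

open Polynomial
open Pool.Agent.Results.MP_c74d57_an.MedianCounterexample
  (MSeq IsL1 conv norm1 IsTransform IsRational OneBlock IsOptimal RatPS)

/-! ### The instance with polynomial data -/

section Fir

variable (nz nw nu ny : ℕ) (M : ℕ) (P D : ℤ[X])

noncomputable def VFz (l : Fin ny) (j : Fin nw) : ℤ[X] :=
  if l.val = 0 then (if j.val = 0 then w3 else if j.val = 1 then w22 else 0)
  else if l.val = 1 then (if j.val = 1 then -1 else if j.val = 2 then C (M : ℤ) * D else 0)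
  else (if j.val = l.val + 1 then 1 else 0)

noncomputable def HFz (i : Fin nz) (j : Fin nw) : ℤ[X] :=
  if i.val = 0 then (if j.val = 2 then C (M : ℤ) * P else 0) else 0

noncomputable def VF : MSeq ny nw := ofPS fun l j => zp (VFz nw ny M D l j)
noncomputable def HF : MSeq nz nw := ofPS fun i j => zp (HFz nz nw M P i j)

/-- The optimal solution. -/
noncomputable def Qf (nu ny : ℕ) : MSeq nu ny :=
  ofPS fun m l => if m.val = 0 ∧ l.val = 0 then PowerSeries.mk (qs cd)
    else if m.val = 0 ∧ l.val = 1 then PowerSeries.mk (h2 bd cd) else 0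

variable {nz nw nu ny M P D}

lemma PS_VF (l : Fin ny) (j : Fin nw) : PS (VF nw ny M D) l j = zp (VFz nw ny M D l j) := by
  unfold VF; rw [PS_ofPS]
lemma PS_HF (l : Fin nz) (j : Fin nw) : PS (HF nz nw M P) l j = zp (HFz nz nw M P l j) := by
  unfold HF; rw [PS_ofPS]

lemma PS_Qf (m : Fin nu) (l : Fin ny) : PS (Qf nu ny) m l
    = if m.val = 0 ∧ l.val = 0 then PowerSeries.mk (qs cd)
      else if m.val = 0 ∧ l.val = 1 then PowerSeries.mk (h2 bd cd) else 0 := by
  unfold Qf; rw [PS_ofPS]

lemma isL1_Qf : IsL1 (Qf nu ny) := by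
  apply isL1_of_stab
  intro i j
  rw [PS_Qf]
  unfold L1
  split_ifs
  · simpa only [PowerSeries.coeff_mk] using summable_qsd
  · simpa only [PowerSeries.coeff_mk] using summable_h2d
  · simp

lemma CLF_0 (Q : MSeq nu ny) (i : Fin nz) (hi : i.val = 0) (j : Fin nw) (hj : j.val = 0)
    (m0 : Fin nu) (hm0 : m0.val = 0) (l0 : Fin ny) (hl0 : l0.val = 0) :
    PS (CL (HF nz nw M P) (UR nz nu) (VF nw ny M D) Q) i j = - (PS Q m0 l0 * zp w3) := by
  rw [PS_CL]
  have h : ∑ l, (∑ m, PS (UR nz nu) i m * PS Q m l) * PS (VF nw ny M D) l j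
      = PS Q m0 l0 * zp w3 := by
    rw [Finset.sum_eq_single l0]
    · rw [sum_UR Q i hi m0 hm0, PS_VF]
      unfold VFz
      rw [if_pos hl0, if_pos hj]
    · intro l _ hl
      have hl' : l.val ≠ 0 := fun h => hl (Fin.ext (by omega))
      have : VFz nw ny M D l j = 0 := by
        unfold VFz
        rw [if_neg hl']
        split_ifs <;> first | rfl | omega
      rw [PS_VF, this, zp_zero, mul_zero]
    · intro h; exact absurd (Finset.mem_univ _) h
  rw [h, PS_HF]
  have : HFz nz nw M P i j = 0 := by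
    unfold HFz
    rw [if_pos hi, if_neg (by omega)]
  rw [this, zp_zero, zero_sub]

lemma CLF_1 (Q : MSeq nu ny) (i : Fin nz) (hi : i.val = 0) (j : Fin nw) (hj : j.val = 1)
    (m0 : Fin nu) (hm0 : m0.val = 0) (l0 : Fin ny) (hl0 : l0.val = 0)
    (l1 : Fin ny) (hl1 : l1.val = 1) :
    PS (CL (HF nz nw M P) (UR nz nu) (VF nw ny M D) Q) i j
      = PS Q m0 l1 - PS Q m0 l0 * zp w22 := by
  rw [PS_CL]
  have hne : l0 ≠ l1 := by intro h; rw [h] at hl0; omega
  have h : ∑ l, (∑ m, PS (UR nz nu) i m * PS Q m l) * PS (VF nw ny M D) l j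
      = PS Q m0 l0 * zp w22 + PS Q m0 l1 * (-1) := by
    rw [Finset.sum_eq_add l0 l1 hne]
    · rw [sum_UR Q i hi m0 hm0, sum_UR Q i hi m0 hm0, PS_VF, PS_VF]
      have e1 : VFz nw ny M D l0 j = w22 := by
        unfold VFz
        rw [if_pos hl0, if_neg (by omega), if_pos hj]
      have e2 : VFz nw ny M D l1 j = -1 := by
        unfold VFz
        rw [if_neg (by omega), if_pos hl1, if_pos hj]
      rw [e1, e2, zp_neg, zp_one]
    · intro l _ hl
      have h0 : l.val ≠ 0 := fun h => hl.1 (Fin.ext (by omega))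
      have h1 : l.val ≠ 1 := fun h => hl.2 (Fin.ext (by omega))
      have : VFz nw ny M D l j = 0 := by
        unfold VFz
        rw [if_neg h0, if_neg h1, if_neg (by omega)]
      rw [PS_VF, this, zp_zero, mul_zero]
    · intro h; exact absurd (Finset.mem_univ _) h
    · intro h; exact absurd (Finset.mem_univ _) h
  rw [h, PS_HF]
  have : HFz nz nw M P i j = 0 := by
    unfold HFz
    rw [if_pos hi, if_neg (by omega)]
  rw [this, zp_zero]
  ring

lemma CLF_2 (Q : MSeq nu ny) (i : Fin nz) (hi : i.val = 0) (j : Fin nw) (hj : j.val = 2)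
    (m0 : Fin nu) (hm0 : m0.val = 0)
    (l1 : Fin ny) (hl1 : l1.val = 1) :
    PS (CL (HF nz nw M P) (UR nz nu) (VF nw ny M D) Q) i j
      = PowerSeries.C (M : ℝ) * (zp P - PS Q m0 l1 * zp D) := by
  rw [PS_CL]
  have h : ∑ l, (∑ m, PS (UR nz nu) i m * PS Q m l) * PS (VF nw ny M D) l j
      = PS Q m0 l1 * (PowerSeries.C (M : ℝ) * zp D) := by
    rw [Finset.sum_eq_single l1]
    · rw [sum_UR Q i hi m0 hm0, PS_VF]
      have e2 : VFz nw ny M D l1 j = C (M : ℤ) * D := by
        unfold VFz
        rw [if_neg (by omega), if_pos hl1, if_neg (by omega), if_pos hj]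
      rw [e2, zp_mul, zp_C]
      push_cast
      ring
    · intro l _ hl
      have h1 : l.val ≠ 1 := fun h => hl (Fin.ext (by omega))
      have : VFz nw ny M D l j = 0 := by
        unfold VFz
        by_cases h0 : l.val = 0
        · rw [if_pos h0, if_neg (by omega), if_neg (by omega)]
        · rw [if_neg h0, if_neg h1, if_neg (by omega)]
      rw [PS_VF, this, zp_zero, mul_zero]
    · intro h; exact absurd (Finset.mem_univ _) h
  rw [h, PS_HF]
  have : HFz nz nw M P i j = C (M : ℤ) * P := by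
    unfold HFz
    rw [if_pos hi, if_pos hj]
  rw [this, zp_mul, zp_C]
  push_cast
  ring

lemma CLF_Qf (i : Fin nz) (j : Fin nw) (h : i.val ≠ 0 ∨ 3 ≤ j.val) :
    PS (CL (HF nz nw M P) (UR nz nu) (VF nw ny M D) (Qf nu ny)) i j = 0 := by
  rw [PS_CL]
  have h2 : ∀ l, (∑ m, PS (UR nz nu) i m * PS (Qf nu ny) m l) * PS (VF nw ny M D) l j = 0 := by
    intro l
    by_cases hi : i.val = 0
    · have hj : 3 ≤ j.val := by
        rcases h with h | h
        · exact absurd hi h
        · exact h
      by_cases hl : l.val ≤ 1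
      · have : VFz nw ny M D l j = 0 := by
          unfold VFz
          by_cases h0 : l.val = 0
          · rw [if_pos h0, if_neg (by omega), if_neg (by omega)]
          · rw [if_neg h0, if_pos (by omega), if_neg (by omega), if_neg (by omega)]
        rw [PS_VF, this, zp_zero, mul_zero]
      · have : ∑ m, PS (UR nz nu) i m * PS (Qf nu ny) m l = 0 := by
          apply Finset.sum_eq_zero
          intro m _
          rw [PS_Qf, if_neg (by omega), if_neg (by omega), mul_zero]
        rw [this, zero_mul]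
    · have : ∑ m, PS (UR nz nu) i m * PS (Qf nu ny) m l = 0 := by
        apply Finset.sum_eq_zero
        intro m _
        by_cases hm : m.val = 0
        · unfold UR URz
          rw [PS_ofPS, if_neg (by omega), zp_zero, zero_mul]
        · rw [PS_Qf, if_neg (by tauto), if_neg (by tauto), mul_zero]
      rw [this, zero_mul]
  rw [Finset.sum_eq_zero (fun l _ => h2 l), sub_zero, PS_HF]
  have : HFz nz nw M P i j = 0 := by
    unfold HFz
    split_ifs with h3 h4
    · omega
    · rfl
    · rfl
  rw [this, zp_zero]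

lemma three_ent_le_norm1 {p q : ℕ} (X : MSeq p q) (i : Fin p) (j j' j'' : Fin q) (h : j ≠ j')
    (h' : j ≠ j'') (h'' : j' ≠ j'') :
    ent X i j + ent X i j' + ent X i j'' ≤ norm1 X := by
  refine le_trans ?_ (row_le_norm1 X i)
  have e : ∑ k ∈ ({j, j', j''} : Finset (Fin q)), ent X i k
      = ent X i j + ent X i j' + ent X i j'' := by
    rw [Finset.sum_insert (by simp [h, h']), Finset.sum_pair h'']
    ring
  rw [← e]
  exact Finset.sum_le_sum_of_subset_of_nonneg (Finset.subset_univ _)
    (fun k _ _ => ent_nonneg X i k)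

theorem sharp_fir (h1nz : 1 ≤ nz) (h3nw : 3 ≤ nw) (m0 : Fin nu) (hm0 : m0.val = 0)
    (l0 : Fin ny) (hl0 : l0.val = 0) (l1 : Fin ny) (hl1 : l1.val = 1)
    (g : PowerSeries ℝ) (hg : L1 g) (hgD : g * zp D = 1)
    (hP : PowerSeries.mk (h2 bd cd) * zp D = zp P)
    (hM : ∑' n, |PowerSeries.coeff n g| ≤ M) :
    Sharp (HF nz nw M P) (UR nz nu) (VF nw ny M D) (Qf nu ny) m0 l0 := by
  refine ⟨isL1_Qf, fun Q hQ => ?_⟩
  have : Nonempty (Fin nz) := ⟨⟨0, by omega⟩⟩
  set i0 : Fin nz := ⟨0, by omega⟩ with hi0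
  set j0 : Fin nw := ⟨0, by omega⟩ with hj0
  set j1 : Fin nw := ⟨1, by omega⟩ with hj1
  set j2 : Fin nw := ⟨2, by omega⟩ with hj2
  have hne : j0 ≠ j1 := by intro h; simp [hj0, hj1] at h
  have hne' : j0 ≠ j2 := by intro h; simp [hj0, hj2] at h
  have hne'' : j1 ≠ j2 := by intro h; simp [hj1, hj2] at h
  have hent0 : ∀ Q : MSeq nu ny, ent (CL (HF nz nw M P) (UR nz nu) (VF nw ny M D) Q) i0 j0
      = N1 0 (fun k => Q k m0 l0) := by
    intro Q
    rw [ent_eq_N1 _ i0 j0 0 (PS Q m0 l0) (by
      rw [CLF_0 Q i0 rfl j0 rfl m0 hm0 l0 hl0, mk_h1_zero, zero_sub])]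
    simp only [coeff_PS]
  have hq00 : ∀ k, Qf nu ny k m0 l0 = qs cd k := by
    intro k
    rw [← coeff_PS (Qf nu ny) m0 l0 k, PS_Qf, if_pos ⟨hm0, hl0⟩, PowerSeries.coeff_mk]
  have hq01 : PS (Qf nu ny) m0 l1 = PowerSeries.mk (h2 bd cd) := by
    rw [PS_Qf, if_neg (by omega), if_pos ⟨hm0, hl1⟩]
  -- the value at the optimal solution
  have hup : norm1 (CL (HF nz nw M P) (UR nz nu) (VF nw ny M D) (Qf nu ny))
      ≤ N1 0 (qs cd) + N2 bd cd (qs cd) := by
    have hQs : (fun k => Qf nu ny k m0 l0) = qs cd := by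
      funext k; exact hq00 k
    have e0 : ent (CL (HF nz nw M P) (UR nz nu) (VF nw ny M D) (Qf nu ny)) i0 j0
        = N1 0 (qs cd) := by rw [hent0, hQs]
    have e1 : ent (CL (HF nz nw M P) (UR nz nu) (VF nw ny M D) (Qf nu ny)) i0 j1
        = N2 bd cd (qs cd) := by
      rw [ent_eq_N2 _ i0 j1 bd cd (PS (Qf nu ny) m0 l0) (by
        rw [CLF_1 (Qf nu ny) i0 rfl j1 rfl m0 hm0 l0 hl0 l1 hl1, hq01])]
      simp only [coeff_PS]
      rw [hQs]
    have e2 : ent (CL (HF nz nw M P) (UR nz nu) (VF nw ny M D) (Qf nu ny)) i0 j2 = 0 := by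
      apply ent_zero
      rw [CLF_2 (Qf nu ny) i0 rfl j2 rfl m0 hm0 l1 hl1, hq01, hP, sub_self, mul_zero]
    rw [← e0, ← e1]
    apply norm1_le
    intro i
    by_cases hi : i = i0
    · subst hi
      rw [Finset.sum_eq_add j0 j1 hne]
      · intro c _ hc
        by_cases hc2 : c = j2
        · rw [hc2]; exact e2
        · apply ent_zero
          apply CLF_Qf
          right
          have h1 : c.val ≠ 0 := fun h => hc.1 (Fin.ext h)
          have h2 : c.val ≠ 1 := fun h => hc.2 (Fin.ext h)
          have h3 : c.val ≠ 2 := fun h => hc2 (Fin.ext h)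
          omega
      · intro h; exact absurd (Finset.mem_univ _) h
      · intro h; exact absurd (Finset.mem_univ _) h
    · rw [Finset.sum_eq_zero]
      · exact add_nonneg (ent_nonneg _ _ _) (ent_nonneg _ _ _)
      · intro j _
        apply ent_zero
        apply CLF_Qf
        left
        intro h; exact hi (Fin.ext h)
  -- the lower bound
  have hlow := three_ent_le_norm1 (CL (HF nz nw M P) (UR nz nu) (VF nw ny M D) Q) i0 j0 j1 j2
    hne hne' hne''
  rw [hent0 Q] at hlow
  set x : ℕ → ℝ := fun k => Q k m0 l0 with hx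
  set y : ℕ → ℝ := fun k => Q k m0 l1 with hy
  have hL1x : Summable (fun k => |x k|) := hQ m0 l0
  have hL1y : Summable (fun k => |y k|) := hQ m0 l1
  have hLy : L1 (PS Q m0 l1) := by
    unfold L1
    simp only [coeff_PS]
    exact hQ m0 l1
  set R : PowerSeries ℝ := zp P - PS Q m0 l1 * zp D with hR
  have hLR : L1 R := by
    have h1 := L1_zp P
    have h2 := hLy.mul (L1_zp D)
    unfold L1 at h1 h2 ⊢
    rw [hR]
    simp only [map_sub]
    exact (h1.of_abs.sub h2.of_abs).abs
  have hE1 : ent (CL (HF nz nw M P) (UR nz nu) (VF nw ny M D) Q) i0 j1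
      = ∑' k, |y k - (2 * x k + 2 * prev x k)| := by
    unfold ent
    apply tsum_congr
    intro k
    rw [← coeff_PS (CL (HF nz nw M P) (UR nz nu) (VF nw ny M D) Q) i0 j1 k,
      CLF_1 Q i0 rfl j1 rfl m0 hm0 l0 hl0 l1 hl1, map_sub, coeff_w22]
    simp only [coeff_PS]
    rfl
  have hE2 : ent (CL (HF nz nw M P) (UR nz nu) (VF nw ny M D) Q) i0 j2
      = M * ∑' k, |PowerSeries.coeff k R| := by
    unfold ent
    rw [← tsum_mul_left]
    apply tsum_congr
    intro k
    rw [← coeff_PS (CL (HF nz nw M P) (UR nz nu) (VF nw ny M D) Q) i0 j2 k,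
      CLF_2 Q i0 rfl j2 rfl m0 hm0 l1 hl1, PowerSeries.coeff_C_mul, abs_mul]
    rw [abs_of_nonneg (Nat.cast_nonneg M)]
  rw [hE1, hE2] at hlow
  have hdiff : ∑' k, |h2 bd cd k - y k| ≤ M * ∑' k, |PowerSeries.coeff k R| := by
    have e : ∀ k, |h2 bd cd k - y k| = |PowerSeries.coeff k (g * R)| := by
      intro k
      have h1 : g * R = PowerSeries.mk (h2 bd cd) - PS Q m0 l1 := by
        rw [hR, ← hP]
        calc g * (PowerSeries.mk (h2 bd cd) * zp D - PS Q m0 l1 * zp D)
            = (g * zp D) * (PowerSeries.mk (h2 bd cd) - PS Q m0 l1) := by ring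
          _ = _ := by rw [hgD, one_mul]
      rw [h1, map_sub, PowerSeries.coeff_mk, coeff_PS]
    rw [tsum_congr e]
    refine (tsum_mul_le hg hLR).trans ?_
    exact mul_le_mul_of_nonneg_right hM (tsum_nonneg (fun _ => abs_nonneg _))
  have hS1 : Summable (fun k => |h2 bd cd k - y k|) :=
    (summable_h2d.of_abs.sub hL1y.of_abs).abs
  have hS2 : Summable (fun k => |y k - (2 * x k + 2 * prev x k)|) :=
    (hL1y.of_abs.sub ((hL1x.of_abs.mul_left 2).add ((summable_prev hL1x).of_abs.mul_left 2))).abs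
  have hN2 : N2 bd cd x ≤ ∑' k, |h2 bd cd k - y k|
      + ∑' k, |y k - (2 * x k + 2 * prev x k)| := by
    rw [← hS1.tsum_add hS2]
    unfold N2
    refine (summable_t2 summable_h2d hL1x).tsum_le_tsum (fun k => ?_) (hS1.add hS2)
    unfold t2
    have : h2 bd cd k - (2 * x k + 2 * prev x k)
        = (h2 bd cd k - y k) + (y k - (2 * x k + 2 * prev x k)) := by ring
    rw [this]
    exact abs_add_le _ _
  have hc := core 0 bd cd x bd_nonneg cd_le_bd bd_zero cd_zero summable_h2d
    summable_qsd hL1x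
  have hd : ∑' k, |Q k m0 l0 - Qf nu ny k m0 l0| = ∑' k, |x k - qs cd k| := by
    apply tsum_congr
    intro k
    rw [hq00]
  have hn : 0 ≤ ∑' k, |x k - qs cd k| := tsum_nonneg (fun _ => abs_nonneg _)
  show norm1 (CL (HF nz nw M P) (UR nz nu) (VF nw ny M D) (Qf nu ny)) + _
    ≤ norm1 (CL (HF nz nw M P) (UR nz nu) (VF nw ny M D) Q)
  rw [hd]
  linarith

lemma not_oneBlock_fir (h3nw : 3 ≤ nw) : ¬ OneBlock (UR nz nu) (VF nw ny M D) := by
  rintro ⟨RU, RV, -, hRV, -, hr⟩
  have hT := transform_eq (V := VF nw ny M D) (A := VFz nw ny M D) PS_VF hRV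
  refine rank_ne_of_right_ker RV
    (fun j => if j.val = 0 then - (emb w22 * emb (C (M : ℤ) * D))
      else if j.val = 1 then emb w3 * emb (C (M : ℤ) * D)
      else if j.val = 2 then emb w3 else 0)
    ⟨2, by omega⟩ (by simpa using emb_ne_zero w3_ne) ?_ hr
  intro l
  set j0 : Fin nw := ⟨0, by omega⟩ with hj0
  set j1 : Fin nw := ⟨1, by omega⟩ with hj1
  set j2 : Fin nw := ⟨2, by omega⟩ with hj2
  have hne : j0 ≠ j1 := by intro h; simp [hj0, hj1] at h
  have hne' : j0 ≠ j2 := by intro h; simp [hj0, hj2] at h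
  have hne'' : j1 ≠ j2 := by intro h; simp [hj1, hj2] at h
  have hsum : ∀ f : Fin nw → RatFunc ℝ, (∀ c, c ≠ j0 → c ≠ j1 → c ≠ j2 → f c = 0) →
      ∑ c, f c = f j0 + f j1 + f j2 := by
    intro f hf
    have e : ∑ k ∈ ({j0, j1, j2} : Finset (Fin nw)), f k = f j0 + f j1 + f j2 := by
      rw [Finset.sum_insert (by simp [hne, hne']), Finset.sum_pair hne'']
      ring
    rw [← e]
    symm
    apply Finset.sum_subset (Finset.subset_univ _)
    intro c _ hc
    simp only [Finset.mem_insert, Finset.mem_singleton, not_or] at hc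
    exact hf c hc.1 hc.2.1 hc.2.2
  rw [hsum]
  · rw [hT, hT, hT]
    change emb _ * _ + emb _ * _ + emb _ * _ = 0
    unfold VFz
    by_cases hl : l.val = 0
    · simp [hl, hj0, hj1, hj2, emb_zero]
      ring
    · by_cases hl1 : l.val = 1
      · have : emb (-1) = -1 := by simp [emb]
        simp [hl1, hj0, hj1, hj2, emb_zero, this]
        ring
      · have h2 : ¬ (2 = l.val + 1) := by omega
        simp [hl, hl1, hj0, hj1, hj2, emb_zero, h2]
  · intro c h0 h1 h2
    have e0 : c.val ≠ 0 := fun h => h0 (Fin.ext h)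
    have e1 : c.val ≠ 1 := fun h => h1 (Fin.ext h)
    have e2 : c.val ≠ 2 := fun h => h2 (Fin.ext h)
    simp [e0, e1, e2]

lemma fullRank_fir (hu : nu ≤ nz) (hy : ny < nw) (h3nw : 3 ≤ nw) (hMD : C (M : ℤ) * D ≠ 0) :
    FullRank (UR nz nu) (VF nw ny M D) := by
  refine ⟨_, _, transform_of (A := URz nz nu) PS_UR, transform_of (A := VFz nw ny M D) PS_VF,
    ?_, ?_⟩
  · apply rank_eq_of_left _ (Matrix.of fun (m : Fin nu) (i : Fin nz) =>
      if i.val = m.val then (1 : RatFunc ℝ) else 0)
    ext m m'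
    rw [Matrix.mul_apply, Finset.sum_eq_single ⟨m.val, by omega⟩]
    · simp only [Matrix.of_apply, if_true, one_mul, URz]
      rw [Matrix.one_apply]
      by_cases h : m = m'
      · subst h; simp
      · have : m.val ≠ m'.val := fun h' => h (Fin.ext h')
        simp [h, this]
    · intro i _ hi
      have : i.val ≠ m.val := fun h => hi (Fin.ext h)
      simp [this]
    · intro h; exact absurd (Finset.mem_univ _) h
  · apply rank_eq_of_right _ (Matrix.of fun (j : Fin nw) (l : Fin ny) =>
      if l.val = 0 then (if j.val = 0 then (emb w3)⁻¹ else 0)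
      else if l.val = 1 then (if j.val = 2 then (emb (C (M : ℤ) * D))⁻¹ else 0)
      else if j.val = l.val + 1 then (1 : RatFunc ℝ) else 0)
    ext l l'
    rw [Matrix.mul_apply, Matrix.one_apply]
    change (∑ j : Fin nw, emb (VFz nw ny M D l j) * (if l'.val = 0 then
      (if j.val = 0 then (emb w3)⁻¹ else 0)
      else if l'.val = 1 then (if j.val = 2 then (emb (C (M : ℤ) * D))⁻¹ else 0)
      else if j.val = l'.val + 1 then (1 : RatFunc ℝ) else 0)) = _
    have hll : l = l' ↔ l.val = l'.val := Fin.ext_iff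
    by_cases h0 : l'.val = 0
    · rw [Finset.sum_eq_single ⟨0, by omega⟩]
      · rw [if_pos h0, if_pos rfl]
        unfold VFz
        by_cases hl0 : l.val = 0
        · rw [if_pos hl0, if_pos rfl, if_pos (by rw [hll]; omega),
            mul_inv_cancel₀ (emb_ne_zero w3_ne)]
        · rw [if_neg (by rw [hll]; omega : ¬ l = l'), if_neg hl0]
          by_cases hl1 : l.val = 1
          · rw [if_pos hl1, if_neg (by simp), if_neg (by simp), emb_zero, zero_mul]
          · rw [if_neg hl1, if_neg (by simp), emb_zero, zero_mul]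
      · intro j _ hj
        have : j.val ≠ 0 := fun h' => hj (Fin.ext h')
        rw [if_pos h0, if_neg this, mul_zero]
      · intro h; exact absurd (Finset.mem_univ _) h
    · by_cases h1 : l'.val = 1
      · rw [Finset.sum_eq_single ⟨2, by omega⟩]
        · rw [if_neg h0, if_pos h1, if_pos rfl]
          unfold VFz
          by_cases hl0 : l.val = 0
          · rw [if_pos hl0, if_neg (by simp), if_neg (by simp), emb_zero, zero_mul,
              if_neg (by rw [hll]; omega : ¬ l = l')]
          · rw [if_neg hl0]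
            by_cases hl1 : l.val = 1
            · rw [if_pos hl1, if_neg (by simp), if_pos rfl, mul_inv_cancel₀ (emb_ne_zero hMD),
                if_pos (by rw [hll]; omega)]
            · rw [if_neg hl1, if_neg (by simp; omega), emb_zero, zero_mul,
                if_neg (by rw [hll]; omega : ¬ l = l')]
        · intro j _ hj
          have : j.val ≠ 2 := fun h' => hj (Fin.ext h')
          rw [if_neg h0, if_pos h1, if_neg this, mul_zero]
        · intro h; exact absurd (Finset.mem_univ _) h
      · rw [Finset.sum_eq_single ⟨l'.val + 1, by omega⟩]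
        · rw [if_neg h0, if_neg h1, if_pos rfl, mul_one]
          unfold VFz
          by_cases hl0 : l.val = 0
          · rw [if_pos hl0, if_neg (by simp), if_neg (by simp; omega), emb_zero,
              if_neg (by rw [hll]; omega : ¬ l = l')]
          · rw [if_neg hl0]
            by_cases hl1 : l.val = 1
            · rw [if_pos hl1, if_neg (by simp; omega), if_neg (by simp; omega), emb_zero,
                if_neg (by rw [hll]; omega : ¬ l = l')]
            · rw [if_neg hl1]
              by_cases hlr : l.val = l'.val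
              · rw [if_pos (by simp; omega), if_pos (by rw [hll]; exact hlr), emb_one]
              · rw [if_neg (by simp; omega), if_neg (by rw [hll]; exact hlr), emb_zero]
        · intro j _ hj
          have : j.val ≠ l'.val + 1 := fun h' => hj (Fin.ext h')
          rw [if_neg h0, if_neg h1, if_neg this, mul_zero]
        · intro h; exact absurd (Finset.mem_univ _) h

end Fir

end Pool.Agent.Y307.EL
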